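import Pool.Agent.Y582.SS.Main
import Pool.Agent.W631.CG.Fn

/-!
# Dense open subsets of `ℕ ^ X` under Martin's axiom for `#X` dense sets and `𝔠 ≤ (#X)⁺`
-/

set_option autoImplicit false

namespace Pool.Agent.Helper9CH

open Set Cardinal Pool.Agent.W684 Pool.Agent.W684.FM

/-- the nodes of the binary tree -/
abbrev Nd : Type := Σ n : ℕ, (Fin n → Bool)

/-- the branch of a real, as a set of nodes -/
def br (r : ℕ → Bool) : Set Nd := range fun n : ℕ => (⟨n, fun i => r i⟩ : Nd)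

theorem br_infinite (r : ℕ → Bool) : (br r).Infinite :=
  infinite_range_of_injective fun m n h => by
    simpa using congrArg Sigma.fst h

theorem br_inter {r s : ℕ → Bool} (h : r ≠ s) : (br r ∩ br s).Finite := by
  obtain ⟨m, hm⟩ := Function.ne_iff.1 h
  refine ((Finset.range (m + 1)).finite_toSet.image
    (fun n : ℕ => (⟨n, fun i => r i⟩ : Nd))).subset ?_
  rintro _ ⟨⟨n, rfl⟩, ⟨k, hk⟩⟩
  refine ⟨n, ?_, rfl⟩
  rw [Finset.mem_coe, Finset.mem_range]
  by_contra hcon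
  have hkn : k = n := congrArg Sigma.fst hk
  subst hkn
  have h2 := eq_of_heq (Sigma.mk.inj_iff.1 hk).2
  have h3 := congrFun h2 ⟨m, by omega⟩
  exact hm h3.symm

/-- Martin's axiom for `κ` dense sets implies `2 ^ κ ≤ 𝔠`. -/
theorem two_power_le {κ : Cardinal.{0}} (hκ : ℵ₀ ≤ κ) (hMA : MartinAxiomCard κ) {X : Type}
    (hX : #X ≤ κ) : (2 : Cardinal.{0}) ^ #X ≤ 𝔠 := by
  classical
  have hlt := Pool.Agent.Y582.CG.lt_continuum hκ (Pool.Agent.Y582.CG.masc hMA)
  have h1 : #X ≤ #(ℕ → Bool) := by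
    refine hX.trans (hlt.le.trans ?_)
    simp
  obtain ⟨r⟩ := h1
  have key : ∀ S : Set X, ∃ C : Set Nd, ∀ x, x ∈ S ↔ (C ∩ br (r x)).Infinite := by
    intro S
    obtain ⟨C, hC1, hC2⟩ := Pool.Agent.Y582.SS.solovay (N := Nd) (ιA := {x // x ∉ S})
      (ιB := {x // x ∈ S}) hκ hMA ((mk_subtype_le _).trans hX) ((mk_subtype_le _).trans hX)
      (fun a => br (r a.1)) (fun b => br (r b.1)) (by
        intro b F hfin
        have h2 : (⋃ a ∈ F, (br (r b.1) ∩ br (r a.1))).Finite := by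
          refine F.finite_toSet.biUnion fun a ha => br_inter fun h => ?_
          exact a.2 (r.injective h ▸ b.2)
        refine br_infinite (r b.1) ((hfin.union h2).subset ?_)
        intro t ht
        by_cases h : t ∈ ⋃ a ∈ F, br (r a.1)
        · right
          obtain ⟨a, ha, hta⟩ := mem_iUnion₂.1 h
          exact mem_iUnion₂.2 ⟨a, ha, ht, hta⟩
        · exact Or.inl ⟨ht, h⟩)
    refine ⟨C, fun x => ⟨fun hx => hC2 ⟨x, hx⟩, fun hx => ?_⟩⟩
    by_contra hcon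
    exact hx (hC1 ⟨x, hcon⟩)
  choose C hC using key
  have hinj : Function.Injective C := by
    intro S T h
    ext x
    rw [hC S x, hC T x, h]
  have h3 := mk_le_of_injective hinj
  rw [mk_set, mk_set] at h3
  refine h3.trans ?_
  rw [← two_power_aleph0]
  exact power_le_power_left two_ne_zero mk_le_aleph0

/-- Under Martin's axiom for `κ` dense sets, `κ` dense open subsets of `ℕ ^ X` have a common
point. -/
theorem exists_generic {κ : Cardinal.{0}} (hκ : ℵ₀ ≤ κ) (hMA : MartinAxiomCard κ) {X : Type}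
    (hX : #X ≤ κ) (𝓓 : Set (Set (X → ℕ))) (h𝓓 : #𝓓 ≤ κ)
    (hD : ∀ D ∈ 𝓓, IsOpen D ∧ Dense D) : (⋂₀ 𝓓).Nonempty := by
  classical
  let P := Pool.Agent.W631.CG.Fn X ℕ
  let E1 : X → Set P := fun x => {p | x ∈ p.dom}
  let E2 : 𝓓 → Set P := fun D => {p | ∀ f : X → ℕ, (∀ i ∈ p.dom, f i = p.val i) → f ∈ D.1}
  have hcard : #(↥(range E1 ∪ range E2)) ≤ κ := by
    refine (mk_union_le _ _).trans ((add_le_add (mk_range_le.trans hX)
      (mk_range_le.trans h𝓓)).trans ?_)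
    rw [add_eq_self hκ]
  haveI : Nonempty P := ⟨⟨∅, fun _ => 0⟩⟩
  obtain ⟨G, -, hup, hdir, hmeet⟩ := hMA P Pool.Agent.W631.CG.Fn.pccc (range E1 ∪ range E2)
    hcard (by
      rintro E (⟨x, rfl⟩ | ⟨D, rfl⟩) p
      · exact ⟨⟨insert x p.dom, p.val⟩, Finset.mem_insert_self _ _,
          Finset.subset_insert _ _, fun _ _ => rfl⟩
      · have hopen : IsOpen {f : X → ℕ | ∀ i ∈ p.dom, f i = p.val i} := by
          have : {f : X → ℕ | ∀ i ∈ p.dom, f i = p.val i} =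
              (p.dom : Set X).pi fun i => {p.val i} := by
            ext f
            simp [Set.mem_pi]
          rw [this]
          exact isOpen_set_pi p.dom.finite_toSet fun i _ => isOpen_discrete _
        obtain ⟨f, hf1, hf2⟩ := (hD D.1 D.2).2.inter_open_nonempty _ hopen
          ⟨p.val, fun _ _ => rfl⟩
        obtain ⟨I, u, hu1, hu2⟩ := isOpen_pi_iff.1 (hD D.1 D.2).1 f hf2
        refine ⟨⟨p.dom ∪ I, f⟩, fun g hg => hu2 ?_, Finset.subset_union_left, fun i hi => hf1 i hi⟩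
        intro i hi
        have h1 := hg i (Finset.mem_union_right _ hi)
        have h2 := (hu1 i hi).2
        change g i = f i at h1
        rwa [← h1] at h2)
  have h1 : ∀ x, ∃ p ∈ G, x ∈ p.dom := fun x => by
    obtain ⟨p, hp1, hp2⟩ := hmeet (E1 x) (Or.inl ⟨x, rfl⟩)
    exact ⟨p, hp1, hp2⟩
  choose p hpG hp using h1
  refine ⟨fun x => (p x).val x, fun D hDm => ?_⟩
  obtain ⟨q, hqG, hq⟩ := hmeet (E2 ⟨D, hDm⟩) (Or.inr ⟨_, rfl⟩)
  refine hq _ fun i hi => ?_
  obtain ⟨s, -, hs1, hs2⟩ := hdir q hqG (p i) (hpG i)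
  rw [← hs1.2 i hi, ← hs2.2 i (hp i)]

/-- Under Martin's axiom for `κ = #X` dense sets and `𝔠 ≤ κ⁺`, fewer than `2 ^ κ` dense open
subsets of `ℕ ^ X` have a common point. -/
theorem baire_of_ma {X : Type} [Infinite X] (hMA : MartinAxiomCard #X)
    (hc : (𝔠 : Cardinal.{0}) ≤ Order.succ #X) :
    ∀ 𝓓 : Set (Set (X → ℕ)), #𝓓 < 2 ^ #X → (∀ D ∈ 𝓓, IsOpen D ∧ Dense D) →
      (⋂₀ 𝓓).Nonempty := by
  intro 𝓓 h𝓓 hD
  have h1 := (h𝓓.trans_le (two_power_le (aleph0_le_mk X) hMA le_rfl)).trans_le hc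
  exact exists_generic (aleph0_le_mk X) hMA le_rfl 𝓓 (Order.lt_succ_iff.1 h1) hD

end Pool.Agent.Helper9CH
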