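import Pool.Agent.Helper292.ForceCH

/-!
# A forcing notion which forces the continuum hypothesis and the Kurepa hypothesis

A condition consists of a countable ordinal `α`, a countable family of subsets of `α` indexed by
members of the index set `I`, and for every `a ≤ α` a sequence of subsets of `a` which contains the
traces on `a` of all members of the family.
-/

set_option autoImplicit false

namespace Pool.Agent.Helper9CH.KH

open Cardinal Set Pool.Agent.Helper292.ForceCH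

/-! ### A combinatorial lemma -/

section Comb

variable {K I V T : Type}

/-- Among more than `2^ω` countable partial functions there are two which agree on the
intersection of their domains. -/
theorem exists_agree (e : K → ℕ → I) (F : K → I → V) (τ : K → T) (hV : #V ≤ 𝔠) (hT : #T ≤ 𝔠)
    (hK : 𝔠 < #K) :
    ∃ j k : K, j ≠ k ∧ τ j = τ k ∧ ∀ n m, e j n = e k m → F j (e k m) = F k (e k m) := by
  classical
  have hne : Nonempty K := mk_ne_zero_iff.1 (fun h0 => by rw [h0] at hK; exact absurd hK (by simp))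
  obtain ⟨k0⟩ := hne
  have h1c : (1 : Cardinal.{0}) ≤ 𝔠 := (one_lt_aleph0.trans_le aleph0_le_continuum).le
  let ch : T → (ℕ → Option (I × V)) → K := fun t h =>
    if hx : ∃ k, τ k = t ∧ ∀ n x v, h n = some (x, v) → x ∈ range (e k) ∧ F k x = v then hx.choose
    else k0
  have hch : ∀ t h, (∃ k, τ k = t ∧ ∀ n x v, h n = some (x, v) → x ∈ range (e k) ∧ F k x = v) →
      τ (ch t h) = t ∧ ∀ n x v, h n = some (x, v) → x ∈ range (e (ch t h)) ∧ F (ch t h) x = v := by
    intro t h hx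
    simp only [ch, dif_pos hx]
    exact hx.choose_spec
  let A : Type := Option (T × (ℕ → Option (ℕ × V)))
  let β : A → Type := fun a => match a with
    | none => PEmpty
    | some _ => ℕ
  have hcard : #(WType β) ≤ 𝔠 := by
    apply WType.cardinalMk_le_of_le'
    have h1 : ∀ a : A, (𝔠 : Cardinal.{0}) ^ lift.{0} #(β a) ≤ 𝔠 := by
      intro a
      rcases a with _ | a
      · show (𝔠 : Cardinal.{0}) ^ lift.{0} #PEmpty ≤ 𝔠
        simp only [mk_eq_zero, lift_zero, power_zero]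
        exact h1c
      · show (𝔠 : Cardinal.{0}) ^ lift.{0} #ℕ ≤ 𝔠
        simp
    have h2 : #A ≤ 𝔠 := by
      have h3 : #(T × (ℕ → Option (ℕ × V))) ≤ 𝔠 := by
        rw [mk_prod, lift_id, lift_id]
        have h4 : #(ℕ → Option (ℕ × V)) ≤ 𝔠 := by
          rw [mk_arrow, lift_id, lift_id, mk_nat]
          calc #(Option (ℕ × V)) ^ ℵ₀ ≤ 𝔠 ^ ℵ₀ := by
                refine power_le_power_right ?_
                rw [mk_option, mk_prod, lift_id, lift_id, mk_nat]
                calc ℵ₀ * #V + 1 ≤ 𝔠 * 𝔠 + 𝔠 :=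
                      add_le_add (mul_le_mul' aleph0_le_continuum hV)
                        h1c
                  _ = 𝔠 := by rw [continuum_mul_self, continuum_add_self]
            _ = 𝔠 := continuum_power_aleph0
        calc #T * #(ℕ → Option (ℕ × V)) ≤ 𝔠 * 𝔠 := mul_le_mul' hT h4
          _ = 𝔠 := continuum_mul_self
      show #(Option (T × (ℕ → Option (ℕ × V)))) ≤ 𝔠
      rw [mk_option]
      calc #(T × (ℕ → Option (ℕ × V))) + 1 ≤ 𝔠 + 𝔠 :=
            add_le_add h3 h1c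
        _ = 𝔠 := continuum_add_self
    calc (sum fun a : A => (𝔠 : Cardinal.{0}) ^ lift.{0} #(β a)) ≤ sum fun _ : A => 𝔠 :=
          sum_le_sum _ _ h1
      _ = #A * 𝔠 := by simp
      _ ≤ 𝔠 * 𝔠 := mul_le_mul' h2 le_rfl
      _ = 𝔠 := continuum_mul_self
  let ev : WType β → K := WType.elim K fun x => match x with
    | ⟨none, _⟩ => k0
    | ⟨some (t, w), c⟩ => ch t fun n => (w n).map fun mv => (e (c n) mv.1, mv.2)
  have hex : ∃ k, k ∉ range ev := by
    by_contra hcon
    push Not at hcon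
    have h1 : #K ≤ #(WType β) := mk_le_of_surjective (f := ev) hcon
    exact absurd (h1.trans hcard) (not_le.2 hK)
  obtain ⟨k, hk⟩ := hex
  let S : Set I := {x | ∃ u : WType β, ∃ m, e (ev u) m = x}
  let u0 : WType β := WType.mk none fun x => x.elim
  have : Nonempty (WType β) := ⟨u0⟩
  choose! u m hum using fun (x : I) (hx : x ∈ S) => hx
  let w : ℕ → Option (ℕ × V) := fun n =>
    if e k n ∈ S then some (m (e k n), F k (e k n)) else none
  let c : ℕ → WType β := fun n => if e k n ∈ S then u (e k n) else u0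
  let z : WType β := WType.mk (some (τ k, w)) c
  have hz : ev z = ch (τ k) fun n => (w n).map fun mv => (e (ev (c n)) mv.1, mv.2) := rfl
  have hh : (fun n => (w n).map fun mv => (e (ev (c n)) mv.1, mv.2)) =
      fun n => if e k n ∈ S then some (e k n, F k (e k n)) else none := by
    funext n
    by_cases hn : e k n ∈ S
    · have h1 : w n = some (m (e k n), F k (e k n)) := if_pos hn
      have h2 : c n = u (e k n) := if_pos hn
      rw [h1, h2, if_pos hn]
      show some (e (ev (u (e k n))) (m (e k n)), F k (e k n)) = _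
      rw [hum _ hn]
    · have h1 : w n = none := if_neg hn
      rw [h1, if_neg hn]
      rfl
  have hspec := hch (τ k) (fun n => if e k n ∈ S then some (e k n, F k (e k n)) else none)
    ⟨k, rfl, fun n x v h => by
      by_cases hn : e k n ∈ S
      · simp only [if_pos hn, Option.some.injEq, Prod.mk.injEq] at h
        obtain ⟨rfl, rfl⟩ := h
        exact ⟨⟨n, rfl⟩, rfl⟩
      · simp only [if_neg hn] at h
        exact absurd h (by simp)⟩
  rw [← hh, ← hz] at hspec
  refine ⟨ev z, k, fun h => hk ⟨z, h⟩, hspec.1, fun n m' hnm => ?_⟩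
  have hS : e k m' ∈ S := ⟨z, n, hnm⟩
  refine (hspec.2 m' (e k m') (F k (e k m')) ?_).2
  exact if_pos hS

end Comb

/-! ### The sentences -/

section

variable (P : Type) [Preorder P]

/-- The Kurepa hypothesis holds in the extension: there are countable families `x a`, `a < ω₁`,
such that for every sequence `E a`, `a < ω₁`, of subsets of `ω₁` there is a subset `B` of `ω₁`
which is different from all `E a` and all of whose traces `B ∩ a` are traces of members of
`x a`. -/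
def KHHolds : Set P :=
  fex fun x : Om → ℕ → Om → Set P => fall fun E : Om → Om → Set P => fex fun B : Om → Set P =>
    fand (fall fun a => fex fun n : ℕ => fall fun b => fall fun _ : b < a =>
        fiff (meets (B b)) (meets (x a n b)))
      (fall fun a => fnot (fall fun b => fiff (meets (B b)) (meets (E a b))))

end

/-! ### The forcing notion -/

/-- A condition. -/
structure Cond (I : Type) : Type where
  α : Om
  e : ℕ → I
  f : I → Om → Prop
  t : Om → ℕ → Om → Prop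
  ok : ∀ n, ∀ a ≤ α, ∃ m, ∀ b < a, (f (e n) b ↔ t a m b)

variable {I : Type}

instance : Preorder (Cond I) where
  le q p := p.α ≤ q.α ∧ (∀ i ∈ range p.e, i ∈ range q.e) ∧
    (∀ i ∈ range p.e, ∀ b < p.α, (q.f i b ↔ p.f i b)) ∧
    ∀ a ≤ p.α, ∀ n, ∀ b ≤ a, (q.t a n b ↔ p.t a n b)
  le_refl p := ⟨le_rfl, fun _ h => h, fun _ _ _ _ => Iff.rfl, fun _ _ _ _ _ => Iff.rfl⟩
  le_trans r q p h h' := ⟨h'.1.trans h.1, fun i hi => h.2.1 i (h'.2.1 i hi),
    fun i hi b hb => (h.2.2.1 i (h'.2.1 i hi) b (hb.trans_le h'.1)).trans (h'.2.2.1 i hi b hb),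
    fun a ha n b hb => (h.2.2.2 a (ha.trans h'.1) n b hb).trans (h'.2.2.2 a ha n b hb)⟩

/-- The condition with given data, in which the levels outside `L` list all members. -/
def build (L : Om → Prop) (δ : Om) (e : ℕ → I) (g : I → Om → Prop) (t : Om → ℕ → Om → Prop)
    (r : ℕ → Prop) (h : ∀ n a, L a → ∃ m, ∀ b < a, (g (e n) b ↔ t a m b)) : Cond I where
  α := δ
  e := e
  f := g
  t a n b := (L a ∧ t a n b) ∨ (¬ L a ∧ ((b < a ∧ g (e n) b) ∨ (a ≤ b ∧ r n)))
  ok n a _ := by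
    by_cases hL : L a
    · obtain ⟨m, hm⟩ := h n a hL
      exact ⟨m, fun b hb => by simp [hL, hm b hb]⟩
    · exact ⟨n, fun b hb => by simp [hL, hb, not_le.2 hb]⟩

theorem extend (p : Cond I) (e' : ℕ → I) (D : I → Prop) (r : ℕ → Prop) (δ : Om) (hδ : p.α < δ)
    (he : ∀ i ∈ range p.e, i ∈ range e') :
    ∃ q ≤ p, q.α = δ ∧ q.e = e' ∧ (∀ i, q.f i p.α ↔ D i) ∧ ∀ n, q.t δ n δ ↔ r n := by
  classical
  let g : I → Om → Prop := fun i b =>
    (b < p.α ∧ ((i ∈ range p.e ∧ p.f i b) ∨ (i ∉ range p.e ∧ p.f (p.e 0) b))) ∨ (b = p.α ∧ D i)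
  have h : ∀ n a, a ≤ p.α → ∃ m, ∀ b < a, (g (e' n) b ↔ p.t a m b) := by
    intro n a ha
    by_cases hn : e' n ∈ range p.e
    · obtain ⟨k, hk⟩ := hn
      obtain ⟨m, hm⟩ := p.ok k a ha
      refine ⟨m, fun b hb => ?_⟩
      have hb' : b < p.α := hb.trans_le ha
      rw [← hm b hb, hk]
      have : e' n ∈ range p.e := ⟨k, hk⟩
      simp [-Set.mem_range, g, hb', hb'.ne, this]
    · obtain ⟨m, hm⟩ := p.ok 0 a ha
      refine ⟨m, fun b hb => ?_⟩
      have hb' : b < p.α := hb.trans_le ha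
      rw [← hm b hb]
      simp [-Set.mem_range, g, hb', hb'.ne, hn]
  refine ⟨build (fun a => a ≤ p.α) δ e' g p.t r h, ⟨hδ.le, he, ?_, ?_⟩, rfl, rfl, ?_, ?_⟩
  · intro i hi b hb
    show g i b ↔ _
    simp [-Set.mem_range, g, hb, hb.ne, hi]
  · intro a ha n b hb
    show (a ≤ p.α ∧ p.t a n b) ∨ (¬ a ≤ p.α ∧ _) ↔ _
    simp [ha]
  · intro i
    show g i p.α ↔ _
    simp [g]
  · intro n
    show (δ ≤ p.α ∧ p.t δ n δ) ∨ (¬ δ ≤ p.α ∧ ((δ < δ ∧ g (e' n) δ) ∨ (δ ≤ δ ∧ r n))) ↔ _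
    simp [not_le.2 hδ]

theorem sigmaClosed : SigmaClosed (Cond I) := by
  classical
  intro s hs
  have hanti : ∀ m n, m ≤ n → s n ≤ s m := by
    intro m n h
    induction h with
    | refl => exact le_rfl
    | step h ih => exact (hs _).trans ih
  obtain ⟨δ, hδ⟩ := exists_bound fun n => (s n).α
  let e : ℕ → I := fun k => (s (Nat.unpair k).1).e (Nat.unpair k).2
  let g : I → Om → Prop := fun i b => ∃ n, i ∈ range (s n).e ∧ b < (s n).α ∧ (s n).f i b
  let t : Om → ℕ → Om → Prop := fun a m b => ∃ n, a ≤ (s n).α ∧ (s n).t a m b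
  have hg : ∀ n, ∀ i ∈ range (s n).e, ∀ b < (s n).α, (g i b ↔ (s n).f i b) := by
    intro n i hi b hb
    constructor
    · rintro ⟨n', hi', hb', h⟩
      have h1 := (hanti n' _ (le_max_left n' n)).2.2.1 i hi' b hb'
      have h2 := (hanti n _ (le_max_right n' n)).2.2.1 i hi b hb
      exact h2.1 (h1.2 h)
    · exact fun h => ⟨n, hi, hb, h⟩
  have ht : ∀ n, ∀ a ≤ (s n).α, ∀ m, ∀ b ≤ a, (t a m b ↔ (s n).t a m b) := by
    intro n a ha m b hb
    constructor
    · rintro ⟨n', ha', h⟩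
      have h1 := (hanti n' _ (le_max_left n' n)).2.2.2 a ha' m b hb
      have h2 := (hanti n _ (le_max_right n' n)).2.2.2 a ha m b hb
      exact h2.1 (h1.2 h)
    · exact fun h => ⟨n, ha, h⟩
  have h : ∀ k a, (∃ n, a ≤ (s n).α) → ∃ m, ∀ b < a, (g (e k) b ↔ t a m b) := by
    rintro k a ⟨n, ha⟩
    have hk : e k ∈ range (s (Nat.unpair k).1).e := ⟨_, rfl⟩
    have hN1 := hanti _ _ (le_max_left (Nat.unpair k).1 n)
    have hN2 := hanti _ _ (le_max_right (Nat.unpair k).1 n)
    have hk' := hN1.2.1 _ hk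
    have ha' : a ≤ (s (max (Nat.unpair k).1 n)).α := ha.trans hN2.1
    obtain ⟨l, hl⟩ := hk'
    obtain ⟨m, hm⟩ := (s (max (Nat.unpair k).1 n)).ok l a ha'
    refine ⟨m, fun b hb => ?_⟩
    rw [hg _ (e k) ⟨l, hl⟩ b (hb.trans_le ha'), ht _ a ha' m b hb.le, ← hm b hb, hl]
  refine ⟨build (fun a => ∃ n, a ≤ (s n).α) δ e g t (fun _ => False) h, fun n =>
    ⟨(hδ n).le, ?_, hg n, ?_⟩⟩
  · rintro _ ⟨m, rfl⟩
    refine ⟨Nat.pair n m, ?_⟩
    show (s (Nat.unpair (Nat.pair n m)).1).e (Nat.unpair (Nat.pair n m)).2 = _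
    rw [Nat.unpair_pair]
  · intro a ha m b hb
    have h1 : ∃ n, a ≤ (s n).α := ⟨n, ha⟩
    show ((∃ n, a ≤ (s n).α) ∧ t a m b) ∨ (¬ (∃ n, a ≤ (s n).α) ∧ _) ↔ _
    rw [← ht n a ha m b hb]
    simp only [h1, true_and, not_true_eq_false, false_and, or_false]

/-! ### The generic objects -/

/-- the generic subsets of `ω₁` -/
def genB (i : I) (b : Om) : Set (Cond I) := {p | i ∈ range p.e ∧ b < p.α ∧ p.f i b}

/-- the generic sequence of countable families -/
def genX (a : Om) (n : ℕ) (b : Om) : Set (Cond I) := {p | a ≤ p.α ∧ b ≤ a ∧ p.t a n b}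

theorem mem_genB {i : I} {b : Om} {p : Cond I} (hi : i ∈ range p.e) (hb : b < p.α)
    (h : p.f i b) : p ∈ meets (genB i b) :=
  fun q hq => ⟨q, le_rfl, p, ⟨hi, hb, h⟩, hq⟩

theorem not_mem_genB {i : I} {b : Om} {p : Cond I} (hi : i ∈ range p.e) (hb : b < p.α)
    (h : ¬ p.f i b) : p ∈ fnot (meets (genB i b)) := by
  intro q hq hm
  obtain ⟨r, hr, s, hs, hrs⟩ := hm q le_rfl
  apply h
  rw [← (hr.trans hq).2.2.1 i hi b hb, hrs.2.2.1 i hs.1 b hs.2.1]
  exact hs.2.2

theorem mem_genX {a : Om} {n : ℕ} {b : Om} {p : Cond I} (ha : a ≤ p.α) (hb : b ≤ a)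
    (h : p.t a n b) : p ∈ meets (genX a n b) :=
  fun q hq => ⟨q, le_rfl, p, ⟨ha, hb, h⟩, hq⟩

theorem not_mem_genX {a : Om} {n : ℕ} {b : Om} {p : Cond I} (ha : a ≤ p.α) (hb : b ≤ a)
    (h : ¬ p.t a n b) : p ∈ fnot (meets (genX a n b)) := by
  intro q hq hm
  obtain ⟨r, hr, s, hs, hrs⟩ := hm q le_rfl
  apply h
  rw [← (hr.trans hq).2.2.2 a ha n b hb, hrs.2.2.2 a hs.1 n b hb]
  exact hs.2.2

theorem exists_above (p : Cond I) (a : Om) : ∃ δ, p.α < δ ∧ a < δ := by
  obtain ⟨b, hb⟩ := exists_bound fun n => if n = 0 then p.α else a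
  have h0 := hb 0
  have h1 := hb 1
  simp at h0 h1
  exact ⟨b, h0, h1⟩

/-- adding an index -/
def addIdx (i : I) (e : ℕ → I) : ℕ → I := fun n => match n with
  | 0 => i
  | n + 1 => e n

theorem mem_addIdx (i : I) (e : ℕ → I) : i ∈ range (addIdx i e) := ⟨0, rfl⟩

theorem sub_addIdx (i : I) (e : ℕ → I) : ∀ j ∈ range e, j ∈ range (addIdx i e) := by
  rintro _ ⟨n, rfl⟩
  exact ⟨n + 1, rfl⟩

theorem traces (i : I) (p : Cond I) :
    p ∈ fall fun a : Om => fex fun n : ℕ => fall fun b => fall fun _ : b < a =>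
        fiff (meets (genB i b)) (meets (genX (I := I) a n b)) := by
  intro a
  rw [mem_fex]
  intro q _
  obtain ⟨δ, hδ, haδ⟩ := exists_above q a
  obtain ⟨r, hr, hα, he, -, -⟩ := extend q (addIdx i q.e) (fun _ => False) (fun _ => False) δ hδ
    (sub_addIdx i q.e)
  have hi : r.e 0 = i := by rw [he]; rfl
  have ha : a ≤ r.α := by rw [hα]; exact haδ.le
  obtain ⟨m, hm⟩ := r.ok 0 a ha
  rw [hi] at hm
  refine ⟨r, hr, m, fun b hb => fiff_of_decided (down_meets _) (down_meets _) ?_⟩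
  have hir : i ∈ range r.e := ⟨0, hi⟩
  by_cases h : r.f i b
  · exact Or.inl ⟨mem_genB hir (hb.trans_le ha) h, mem_genX ha hb.le ((hm b hb).1 h)⟩
  · exact Or.inr ⟨not_mem_genB hir (hb.trans_le ha) h,
      not_mem_genX ha hb.le fun h' => h ((hm b hb).2 h')⟩

theorem omegaOnePreserved (p : Cond I) : p ∈ OmegaOnePreserved (Cond I) := by
  intro q _ hq
  obtain ⟨r, _, R, hR, hR'⟩ := mem_fex.1 hq q le_rfl
  obtain ⟨t, ht, h1⟩ := meet_countable sigmaClosed (fun n => {t | ∃ a, t ∈ meets (R n a)})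
    (fun n t ⟨a, ha⟩ t' ht' => ⟨a, down_meets _ _ ha _ ht'⟩) r (by
      intro n t ht
      obtain ⟨t', ht', a, ha⟩ := mem_fex.1 (hR.1 n) t ht
      exact ⟨t', ht', a, ha⟩)
  choose g hg using h1
  obtain ⟨b, hb⟩ := exists_bound g
  obtain ⟨t', ht', n, hn⟩ := mem_fex.1 (hR' b) t ht
  have h2 := hR.2 n (g n) b
  obtain ⟨t'', _, h3⟩ := mem_fimp.1 h2 t' (ht'.trans ht) ⟨down_meets _ _ (hg n) _ ht', hn⟩
  exact (hb n).ne h3

theorem chHolds (p : Cond I) : p ∈ CHHolds (Cond I) := by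
  refine mem_fex.2 fun q _ => ⟨q, le_rfl, fun a n => genX a n a, fun x =>
    mem_fex.2 fun r _ => ?_⟩
  obtain ⟨t, ht, h1⟩ := decide_countable sigmaClosed (fun n : ℕ => meets (x n))
    (fun _ => down_meets _) r
  obtain ⟨δ, hδ, -⟩ := exists_above t t.α
  obtain ⟨t', ht', hα, -, -, h6⟩ := extend t t.e (fun _ => False) (fun n => t ∈ meets (x n)) δ hδ
    (fun _ h => h)
  refine ⟨t', ht'.trans ht, δ, fun n => fiff_of_decided (down_meets _) (down_meets _) ?_⟩
  rcases h1 n with h8 | h8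
  · exact Or.inl ⟨down_meets _ _ h8 _ ht', mem_genX hα.ge le_rfl ((h6 n).2 h8)⟩
  · exact Or.inr ⟨down_fnot _ _ h8 _ ht', not_mem_genX hα.ge le_rfl
      fun h9 => h8 t le_rfl ((h6 n).1 h9)⟩

/-- two conditions with different generic sets named by `E` are incompatible -/
theorem not_compat {E : Om → Set (Cond I)} {i j : I} (hij : i ≠ j) {p q r : Cond I}
    (hp : p ∈ fall fun b => fiff (meets (genB i b)) (meets (E b)))
    (hq : q ∈ fall fun b => fiff (meets (genB j b)) (meets (E b))) (hrp : r ≤ p) (hrq : r ≤ q) :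
    False := by
  classical
  obtain ⟨δ, hδ, -⟩ := exists_above r r.α
  obtain ⟨s, hs, hα, he, hf, -⟩ := extend r (addIdx i (addIdx j r.e)) (fun k => k = i)
    (fun _ => False) δ hδ (fun k hk => sub_addIdx _ _ _ (sub_addIdx _ _ _ hk))
  have hi : i ∈ range s.e := by rw [he]; exact mem_addIdx _ _
  have hj : j ∈ range s.e := by rw [he]; exact sub_addIdx _ _ _ (mem_addIdx _ _)
  have hb : r.α < s.α := by rw [hα]; exact hδ
  have h1 := mem_genB hi hb ((hf i).2 rfl)
  have h2 := not_mem_genB hj hb fun h => hij ((hf j).1 h).symm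
  obtain ⟨u, hu, h3⟩ := mem_fimp.1 (hp r.α).1 s (hs.trans hrp) h1
  obtain ⟨v, hv, h4⟩ := mem_fimp.1 (hq r.α).2 u (hu.trans (hs.trans hrq)) h3
  exact h2 v (hv.trans hu) h4

/-- Only few of the generic sets may be equal to a given set. -/
theorem few (E : Om → Set (Cond I)) :
    #{i : I | ∃ p : Cond I, p ∈ fall fun b => fiff (meets (genB i b)) (meets (E b))} ≤ 𝔠 := by
  classical
  by_contra hcon
  rw [not_le] at hcon
  choose p hp using fun k : {i : I | ∃ p : Cond I,
    p ∈ fall fun b => fiff (meets (genB i b)) (meets (E b))} => k.2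
  have hc : ∀ a : Om, ∃ c : ℕ → Om, ∀ b, b ≤ a → ∃ n, c n = b := by
    intro a
    have h1 := countable_Iio a
    have h2 : (Iic a).Countable := by
      have : Iic a = insert a (Iio a) := by
        ext x
        simp [le_iff_eq_or_lt]
      rw [this]
      exact Set.Countable.insert _ (Set.countable_coe_iff.1 h1)
    obtain ⟨c, hc⟩ := h2.exists_eq_range nonempty_Iic
    refine ⟨c, fun b hb => ?_⟩
    have : b ∈ range c := by rw [← hc]; exact hb
    exact this
  choose c hc using hc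
  have hV : #(ℕ → Prop) ≤ 𝔠 := by simp
  have hT : #(Om × (ℕ → ℕ → ℕ → Prop)) ≤ 𝔠 := by
    have h1 : #(ℕ → ℕ → ℕ → Prop) ≤ 𝔠 := by simp
    have h2 : #Om ≤ 𝔠 := by
      rw [mk_toType, card_ord]
      exact aleph_one_le_continuum
    rw [mk_prod, lift_id, lift_id]
    exact (mul_le_mul' h2 h1).trans continuum_mul_self.le
  obtain ⟨j, k, hjk, hτ, hF⟩ := exists_agree (fun k => (p k).e)
    (fun k i => fun n : ℕ => (p k).f i (c (p k).α n))
    (fun k => ((p k).α, fun u n v => (p k).t (c (p k).α u) n (c (p k).α v))) hV hT hcon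
  simp only [Prod.mk.injEq] at hτ
  obtain ⟨hα, ht⟩ := hτ
  have ht' : ∀ a ≤ (p j).α, ∀ n, ∀ b ≤ a, ((p k).t a n b ↔ (p j).t a n b) := by
    intro a ha n b hb
    obtain ⟨u, rfl⟩ := hc (p j).α a ha
    obtain ⟨v, rfl⟩ := hc (p j).α b (hb.trans ha)
    have h1 := congrFun (congrFun (congrFun ht u) n) v
    rw [← hα] at h1
    exact Iff.of_eq h1.symm
  have hf' : ∀ i ∈ range (p j).e, i ∈ range (p k).e → ∀ b < (p j).α,
      ((p k).f i b ↔ (p j).f i b) := by
    rintro _ ⟨n, hn⟩ ⟨m, rfl⟩ b hb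
    obtain ⟨v, rfl⟩ := hc (p j).α b hb.le
    have h1 := congrFun (hF n m hn) v
    rw [← hα] at h1
    exact Iff.of_eq h1.symm
  -- a common extension
  let e : ℕ → I := fun n => if Even n then (p j).e (n / 2) else (p k).e (n / 2)
  have hej : ∀ i ∈ range (p j).e, i ∈ range e := by
    rintro _ ⟨n, rfl⟩
    refine ⟨2 * n, ?_⟩
    simp [e]
  have hek : ∀ i ∈ range (p k).e, i ∈ range e := by
    rintro _ ⟨n, rfl⟩
    refine ⟨2 * n + 1, ?_⟩
    have h1 : (2 * n + 1) / 2 = n := by omega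
    simp [e, h1]
  have he : ∀ n, e n ∈ range (p j).e ∨ e n ∈ range (p k).e := by
    intro n
    by_cases hn : Even n
    · left
      simp [e, hn]
    · right
      simp [e, hn]
  let g : I → Om → Prop := fun i b => if i ∈ range (p j).e then (p j).f i b else (p k).f i b
  have hgk : ∀ i ∈ range (p k).e, ∀ b < (p j).α, (g i b ↔ (p k).f i b) := by
    intro i hi b hb
    by_cases h : i ∈ range (p j).e
    · have : g i b = (p j).f i b := if_pos h
      rw [this, hf' i h hi b hb]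
    · have : g i b = (p k).f i b := if_neg h
      rw [this]
  have hgj : ∀ i ∈ range (p j).e, ∀ b < (p j).α, (g i b ↔ (p j).f i b) := by
    intro i hi b hb
    have : g i b = (p j).f i b := if_pos hi
    rw [this]
  have h : ∀ n a, a ≤ (p j).α → ∃ m, ∀ b < a, (g (e n) b ↔ (p j).t a m b) := by
    intro n a ha
    rcases he n with ⟨l, hl⟩ | ⟨l, hl⟩
    · obtain ⟨m, hm⟩ := (p j).ok l a ha
      refine ⟨m, fun b hb => ?_⟩
      rw [hgj _ ⟨l, hl⟩ b (hb.trans_le ha), ← hm b hb, hl]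
    · obtain ⟨m, hm⟩ := (p k).ok l a (hα ▸ ha)
      refine ⟨m, fun b hb => ?_⟩
      rw [hgk _ ⟨l, hl⟩ b (hb.trans_le ha), ← ht' a ha m b hb.le, ← hm b hb, hl]
  let q : Cond I := build (fun a => a ≤ (p j).α) (p j).α e g (p j).t (fun _ => False) h
  have hqt : ∀ a ≤ (p j).α, ∀ n b, (q.t a n b ↔ (p j).t a n b) := by
    intro a ha n b
    show (a ≤ (p j).α ∧ (p j).t a n b) ∨ (¬ a ≤ (p j).α ∧ _) ↔ _
    simp [ha]
  have hqj : q ≤ p j := ⟨le_rfl, hej, hgj, fun a ha n b _ => hqt a ha n b⟩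
  have hqk : q ≤ p k := ⟨hα.ge, hek, fun i hi b hb => hgk i hi b (hα ▸ hb),
    fun a ha n b hb => (hqt a (hα ▸ ha) n b).trans (ht' a (hα ▸ ha) n b hb).symm⟩
  exact not_compat (fun h => hjk (Subtype.ext h)) (hp j) (hp k) hqj hqk

theorem khHolds (hI : 𝔠 < #I) (p : Cond I) : p ∈ KHHolds (Cond I) := by
  refine mem_fex.2 fun q _ => ⟨q, le_rfl, genX, fun E => mem_fex.2 fun r _ => ?_⟩
  have hUn : #(⋃ a : Om, {i : I | ∃ p : Cond I,
      p ∈ fall fun b => fiff (meets (genB i b)) (meets (E a b))}) ≤ 𝔠 := by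
    have hO : #Om ≤ 𝔠 := by
      rw [mk_toType, card_ord]
      exact aleph_one_le_continuum
    refine (mk_iUnion_le _).trans ?_
    refine (mul_le_mul' hO (ciSup_le' fun a => few (E a))).trans continuum_mul_self.le
  obtain ⟨i, hi⟩ : ∃ i : I, i ∉ ⋃ a : Om, {i : I | ∃ p : Cond I,
      p ∈ fall fun b => fiff (meets (genB i b)) (meets (E a b))} := by
    by_contra hcon
    push Not at hcon
    have h1 : (univ : Set I) ⊆ ⋃ a : Om, {i : I | ∃ p : Cond I,
      p ∈ fall fun b => fiff (meets (genB i b)) (meets (E a b))} := fun i _ => hcon i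
    have h2 := (mk_le_mk_of_subset h1).trans hUn
    rw [mk_univ] at h2
    exact absurd h2 (not_le.2 hI)
  refine ⟨r, le_rfl, genB i, traces i r, fun a s _ h => hi (mem_iUnion.2 ⟨a, s, h⟩)⟩

/-- Some forcing notion forces that `ω₁` is preserved, the continuum hypothesis, and the Kurepa
hypothesis. -/
theorem exists_forcing : ∃ (P : Type) (_ : Preorder P), Nonempty P ∧ ∀ p : P,
    p ∈ OmegaOnePreserved P ∧ p ∈ CHHolds P ∧ p ∈ KHHolds P := by
  have hI : (𝔠 : Cardinal.{0}) < #(Set (Set ℕ)) := by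
    have h1 := cantor #(Set ℕ)
    rw [mk_set, ← mk_set (α := Set ℕ)] at *
    simpa using h1
  refine ⟨Cond (Set (Set ℕ)), inferInstance, ⟨?_⟩, fun p =>
    ⟨omegaOnePreserved p, chHolds p, khHolds hI p⟩⟩
  exact ⟨Classical.arbitrary Om, fun _ => ∅, fun _ _ => False, fun _ _ _ => False,
    fun _ _ _ => ⟨0, fun _ _ => Iff.rfl⟩⟩

end Pool.Agent.Helper9CH.KH
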