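import Pool.Agent.Helper9CH.ForceKH
import Pool.Agent.V11245.OmegaPerf

/-!
# The plain forms of the forced continuum hypothesis and the forced Kurepa hypothesis
-/

set_option autoImplicit false

namespace Pool.Agent.Helper9CH.KH

open Cardinal Set Pool.Agent.Helper292.ForceCH Pool.Agent.V11245.OmegaPerf

/-- The sentence `CHHolds` read in the universe of sets: some family of subsets of `ℕ` indexed by
`ω₁` contains every subset of `ℕ`. -/
def PlainCH : Prop :=
  ∃ E : Om → ℕ → Prop, ∀ x : ℕ → Prop, ∃ a : Om, ∀ n : ℕ, (x n ↔ E a n)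

/-- The sentence `KHHolds` read in the universe of sets: there are countable families `x a`,
`a < ω₁`, such that for every sequence `E a`, `a < ω₁`, of subsets of `ω₁` there is a subset `B`
of `ω₁` which is different from all `E a` and all of whose traces `B ∩ a` are traces of members of
`x a`. -/
def PlainKH : Prop :=
  ∃ x : Om → ℕ → Om → Prop, ∀ E : Om → Om → Prop, ∃ B : Om → Prop,
    (∀ a, ∃ n : ℕ, ∀ b, b < a → (B b ↔ x a n b)) ∧ ∀ a, ¬ ∀ b, (B b ↔ E a b)

theorem mk_Om : #Om = (ℵ₁ : Cardinal.{0}) := by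
  rw [mk_toType, card_ord]

theorem plainCH_iff : PlainCH ↔ (𝔠 : Cardinal.{0}) = ℵ₁ := by
  have hN : #(ℕ → Prop) = (𝔠 : Cardinal.{0}) := by simp
  constructor
  · rintro ⟨E, hE⟩
    refine le_antisymm ?_ aleph_one_le_continuum
    rw [← hN, ← mk_Om]
    refine mk_le_of_surjective (f := E) fun x => ?_
    obtain ⟨a, ha⟩ := hE x
    exact ⟨a, funext fun n => propext (ha n).symm⟩
  · intro h
    have h1 : #(ℕ → Prop) = #Om := by rw [hN, mk_Om, h]
    obtain ⟨f⟩ := Cardinal.eq.1 h1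
    exact ⟨f.symm, fun x => ⟨f x, fun n => by rw [f.symm_apply_apply]⟩⟩

theorem succ_aleph1 : Order.succ (ℵ₁ : Cardinal.{0}) = ℵ_ 2 := by
  rw [Cardinal.succ_aleph]
  norm_num

theorem plainKH_iff : PlainKH ↔ KurepaHypothesis.{0} := by
  classical
  constructor
  · rintro ⟨x, hx⟩
    refine ⟨{S : Set Om | ∀ a, ∃ n : ℕ, ∀ b, b < a → (b ∈ S ↔ x a n b)}, ?_, fun α => ?_⟩
    · by_contra hcon
      rw [not_le, ← succ_aleph1, Order.lt_succ_iff] at hcon
      obtain ⟨f⟩ := hcon.trans mk_Om.ge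
      obtain ⟨B, hB, hne⟩ := hx fun a b => ∃ S : {S : Set Om | ∀ a, ∃ n : ℕ, ∀ b, b < a →
        (b ∈ S ↔ x a n b)}, f S = a ∧ b ∈ S.1
      let S : {S : Set Om | ∀ a, ∃ n : ℕ, ∀ b, b < a → (b ∈ S ↔ x a n b)} := ⟨{b | B b}, hB⟩
      refine hne (f S) fun b => ⟨fun hb => ⟨S, rfl, hb⟩, ?_⟩
      rintro ⟨T, hT, hb⟩
      rw [f.injective hT] at hb
      exact hb
    · refine (countable_range fun n : ℕ => {b : Om | b < α ∧ x α n b}).mono ?_
      rintro _ ⟨S, hS, rfl⟩
      obtain ⟨n, hn⟩ := hS α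
      refine ⟨n, ?_⟩
      ext b
      simp only [mem_ofPred_eq, mem_inter_iff, mem_Iio]
      constructor
      · exact fun h => ⟨(hn b h.1).2 h.2, h.1⟩
      · exact fun h => ⟨h.2, (hn b h.2).1 h.1⟩
  · rintro ⟨𝓑, hB, htr⟩
    have hlt : (ℵ₁ : Cardinal.{0}) < #𝓑 := by
      refine lt_of_lt_of_le ?_ hB
      rw [← succ_aleph1]
      exact Order.lt_succ _
    have hne : 𝓑.Nonempty := by
      rw [nonempty_iff_ne_empty]
      rintro rfl
      simp at hlt
    choose e he using fun a : Om => (htr a).exists_eq_range (hne.image _)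
    refine ⟨fun a n b => b ∈ e a n, fun E => ?_⟩
    obtain ⟨S, hS, hSE⟩ : ∃ S ∈ 𝓑, S ∉ range fun a => {b | E a b} := by
      by_contra hcon
      push Not at hcon
      have h1 : 𝓑 ⊆ range fun a => {b | E a b} := hcon
      have h2 := (mk_le_mk_of_subset h1).trans mk_range_le
      rw [mk_Om] at h2
      exact absurd h2 (not_le.2 hlt)
    refine ⟨fun b => b ∈ S, fun a => ?_, fun a h => hSE ⟨a, ?_⟩⟩
    · have h1 : S ∩ Iio a ∈ range (e a) := by
        rw [← he a]
        exact ⟨S, hS, rfl⟩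
      obtain ⟨n, hn⟩ := h1
      refine ⟨n, fun b hb => ?_⟩
      show b ∈ S ↔ b ∈ e a n
      rw [hn]
      exact ⟨fun h => ⟨h, hb⟩, fun h => h.1⟩
    · ext b
      exact (h b).symm

end Pool.Agent.Helper9CH.KH
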