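import Pool.Agent.W910.FC.Collapse

/-!
# Ground model Kurepa trees stay Kurepa trees in ccc extensions
-/

set_option autoImplicit false

namespace Pool.Agent.Helper9CH

open Cardinal Set Pool.Agent.Helper669.Forcing Pool.Agent.W684.FM

/-- `B` is a maximal chain of the relation `R`. -/
def MaxCh {W : Type} (R : W → W → Prop) (B : W → Prop) : Prop :=
  (∀ x y, B x ∧ B y → (x = y ∨ R x y ∨ R y x)) ∧
    ∀ z, (∀ x, B x → (z = x ∨ R z x ∨ R x z)) → B z

/-- For every sequence `E a`, `a < ω₁`, of subsets of `W` there is an unbounded maximal chain `B`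
of `R` which is different from all `E a`. -/
def ManyBranches {W : Type} [LinearOrder W] (R : W → W → Prop) : Prop :=
  ∀ E : Om1 → W → Prop, ∃ B : W → Prop, MaxCh R B ∧ (∀ a, ∃ b, a < b ∧ B b) ∧
    ∀ a, ¬ ∀ x, (B x ↔ E a x)

section

variable {P : Type} [Preorder P] {W : Type}

/-- Forcing version of `MaxCh`, for a relation `R` of the ground model. -/
def MaxChN (R : W → W → Prop) (B : W → Set P) : Set P :=
  fand (fall fun x => fall fun y => fimp (fand (meets (B x)) (meets (B y)))
      (fground (x = y ∨ R x y ∨ R y x)))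
    (fall fun z => fimp (fall fun x => fimp (meets (B x)) (fground (z = x ∨ R z x ∨ R x z)))
      (meets (B z)))

/-- The named sets `B` and `C` are equal. -/
def SameSet (B C : W → Set P) : Set P :=
  fall fun x => fand (fimp (meets (B x)) (meets (C x))) (fimp (meets (C x)) (meets (B x)))

/-- Forcing version of `ManyBranches`, for a relation `R` of the ground model. -/
def ManyBranchesHolds (P : Type) [Preorder P] {W : Type} [LinearOrder W] (R : W → W → Prop) :
    Set P :=
  fall fun E : Om1 → W → Set P => fex fun B : W → Set P =>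
    fand (MaxChN R B) (fand (fall fun a => fex fun b => fand (fground (a < b)) (meets (B b)))
      (fall fun a => fnot (SameSet B (E a))))

/-- the canonical name of a ground model set -/
def chk (S : Set W) (x : W) : Set P := {_p | x ∈ S}

theorem mem_chk {S : Set W} {x : W} {p : P} : p ∈ meets (chk S x) ↔ x ∈ S := by
  constructor
  · intro h
    obtain ⟨_, _, _, h1, _⟩ := h p le_rfl
    exact h1
  · intro h
    exact meets_of_mem h

theorem maxChN_chk {R : W → W → Prop} {S : Set W} (hS : MaxCh R fun x => x ∈ S) (p : P) :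
    p ∈ MaxChN R (chk S) := by
  refine ⟨fun x y => ?_, fun z => ?_⟩
  · rw [mem_fimp]
    rintro q _ ⟨h1, h2⟩
    exact ⟨q, le_rfl, hS.1 x y ⟨mem_chk.1 h1, mem_chk.1 h2⟩⟩
  · rw [mem_fimp]
    intro q _ h
    refine ⟨q, le_rfl, mem_chk.2 (hS.2 z fun x hx => ?_)⟩
    have h1 := h x
    rw [mem_fimp] at h1
    obtain ⟨_, _, h2⟩ := h1 q le_rfl (mem_chk.2 hx)
    exact h2

theorem eq_of_sameSet {S T : Set W} {C : W → Set P} {p q r : P} (hp : p ∈ SameSet (chk S) C)
    (hq : q ∈ SameSet (chk T) C) (hrp : r ≤ p) (hrq : r ≤ q) : S = T := by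
  have key : ∀ {S T : Set W} {p q : P}, p ∈ SameSet (chk S) C → q ∈ SameSet (chk T) C →
      r ≤ p → r ≤ q → S ⊆ T := by
    intro S T p q hp hq hrp hrq x hx
    have h1 := (hp x).1
    rw [mem_fimp] at h1
    obtain ⟨s, hs, h2⟩ := h1 r hrp (mem_chk.2 hx)
    have h3 := (hq x).2
    rw [mem_fimp] at h3
    obtain ⟨t, _, h4⟩ := h3 s (hs.trans hrq) h2
    exact mem_chk.1 h4
  exact subset_antisymm (key hp hq hrp hrq) (key hq hp hrq hrp)

/-- In ccc extensions a relation with more than `ℵ₁` unbounded maximal chains in the ground model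
still has more than `ℵ₁` unbounded maximal chains. -/
theorem manyBranches_ccc [LinearOrder W] (hP : PCCC P) {R : W → W → Prop} (𝓑 : Set (Set W))
    (h𝓑 : ℵ₁ < #𝓑) (hB : ∀ S ∈ 𝓑, MaxCh R fun x => x ∈ S)
    (hU : ∀ S ∈ 𝓑, ∀ a, ∃ b, a < b ∧ b ∈ S) (p0 : P) :
    p0 ∈ ManyBranchesHolds P R := by
  classical
  have : Nonempty P := ⟨p0⟩
  intro E
  -- the branches which may be listed
  let T : Om1 → Set (Set W) := fun a => {S | ∃ p : P, p ∈ SameSet (chk S) (E a)}
  have hT : ∀ a, (T a).Countable := by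
    intro a
    choose! f hf using fun (S : Set W) (hS : S ∈ T a) => hS
    have hA : (f '' T a).Countable := by
      apply hP
      rintro _ ⟨S, hS, rfl⟩ _ ⟨S', hS', rfl⟩ hne ⟨r, h1, h2⟩
      exact hne (by rw [eq_of_sameSet (hf S hS) (hf S' hS') h1 h2])
    refine Set.countable_of_injective_of_countable_image (f := f) ?_ hA
    intro S hS S' hS' hSS
    have h1 := hf S hS
    have h2 := hf S' hS'
    rw [← hSS] at h2
    exact eq_of_sameSet h1 h2 le_rfl le_rfl
  have hUn : #(⋃ a, T a) ≤ ℵ₁ := by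
    refine (mk_iUnion_le _).trans ?_
    calc #Om1 * ⨆ a, #(T a) ≤ ℵ₁ * ℵ₀ := by
          refine mul_le_mul' (mk_ord_toType _).le (ciSup_le' fun a => ?_)
          exact le_aleph0_iff_set_countable.2 (hT a)
      _ = ℵ₁ := mul_aleph0_eq (aleph0_le_aleph 1)
  obtain ⟨S, hS, hST⟩ : ∃ S ∈ 𝓑, S ∉ ⋃ a, T a := by
    by_contra hcon
    push Not at hcon
    exact absurd ((mk_le_mk_of_subset hcon).trans hUn) (not_le.2 h𝓑)
  rw [mem_fex]
  intro q _
  refine ⟨q, le_rfl, chk S, maxChN_chk (hB S hS) q, fun a => ?_, fun a => ?_⟩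
  · obtain ⟨b, hab, hb⟩ := hU S hS a
    rw [mem_fex]
    exact fun r _ => ⟨r, le_rfl, b, hab, mem_chk.2 hb⟩
  · intro r _ h
    exact hST (mem_iUnion.2 ⟨a, r, h⟩)

end

end Pool.Agent.Helper9CH
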