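import Pool.Agent.H995R3.Kurepa.Def

/-!
# A regular Kurepa tree from a Kurepa family
-/

set_option autoImplicit false

open Set Cardinal

namespace Pool.Agent.Helper9CH.KurepaTree

open Pool.Agent.H995R3.Kurepa

section

variable {W : Type} [LinearOrder W] (𝓑 : Set (Set W))

/-- The nodes: subsets of initial segments which are equal to a trace of a member of the family up
to finitely many points. -/
def Node : Type :=
  {p : W × Set W // p.2 ⊆ Iio p.1 ∧ ∃ B ∈ 𝓑, {b | b < p.1 ∧ ¬ (b ∈ B ↔ b ∈ p.2)}.Finite}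

variable {𝓑}

/-- The order of the nodes. -/
def Lt (p q : Node 𝓑) : Prop := p.1.1 < q.1.1 ∧ ∀ b < p.1.1, (b ∈ p.1.2 ↔ b ∈ q.1.2)

/-- the restriction of a node -/
def restr (p : Node 𝓑) (a : W) (ha : a < p.1.1) : Node 𝓑 :=
  ⟨(a, {b | b < a ∧ b ∈ p.1.2}), fun _ h => h.1, by
    obtain ⟨B, hB, hf⟩ := p.2.2
    refine ⟨B, hB, hf.subset ?_⟩
    rintro b ⟨hb, h⟩
    refine ⟨hb.trans ha, fun h' => h ?_⟩
    exact ⟨fun h1 => ⟨hb, h'.1 h1⟩, fun h1 => h'.2 h1.2⟩⟩

theorem restr_lt (p : Node 𝓑) (a : W) (ha : a < p.1.1) : Lt (restr p a ha) p :=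
  ⟨ha, fun _ hb => ⟨fun h => h.2, fun h => ⟨hb, h⟩⟩⟩

theorem node_ext {p q : Node 𝓑} (h1 : p.1.1 = q.1.1) (h2 : ∀ b < p.1.1, (b ∈ p.1.2 ↔ b ∈ q.1.2)) :
    p = q := by
  apply Subtype.ext
  apply Prod.ext h1
  ext b
  constructor
  · intro h
    exact (h2 b (p.2.1 h)).1 h
  · intro h
    exact (h2 b (h1 ▸ q.2.1 h)).2 h

theorem to_Lt [WellFoundedLT W] : TO (Lt (𝓑 := 𝓑)) := by
  refine ⟨fun a h => lt_irrefl _ h.1, fun a b c h h' => ⟨h.1.trans h'.1, fun x hx =>
    (h.2 x hx).trans (h'.2 x (hx.trans h.1))⟩, fun a a' b h h' => ?_, ?_⟩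
  · rcases lt_trichotomy a.1.1 a'.1.1 with h1 | h1 | h1
    · exact Or.inr (Or.inl ⟨h1, fun x hx => (h.2 x hx).trans (h'.2 x (hx.trans h1)).symm⟩)
    · exact Or.inl (node_ext h1 fun x hx => (h.2 x hx).trans (h'.2 x (h1 ▸ hx)).symm)
    · exact Or.inr (Or.inr ⟨h1, fun x hx => (h'.2 x hx).trans (h.2 x (hx.trans h1)).symm⟩)
  · have : Subrelation (Lt (𝓑 := 𝓑)) (InvImage (· < ·) fun p : Node 𝓑 => p.1.1) := fun h => h.1
    exact this.wf (InvImage.wf _ wellFounded_lt)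

theorem countable_level (hL : Like W) (htr : ∀ α : W, ((fun S => S ∩ Iio α) '' 𝓑).Countable)
    (α : W) : {p : Node 𝓑 | p.1.1 = α}.Countable := by
  classical
  have h1 : Countable (Iio α) := (hL.cnt α).to_subtype
  have h2 : Countable ((fun S => S ∩ Iio α) '' 𝓑) := (htr α).to_subtype
  have key : ∀ p : Node 𝓑, p.1.1 = α → ∃ u ∈ ((fun S => S ∩ Iio α) '' 𝓑), ∃ F : Finset (Iio α),
      p.1.2 = {b | ∃ h : b < α, ¬ (b ∈ u ↔ (⟨b, h⟩ : Iio α) ∈ F)} := by
    rintro p rfl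
    obtain ⟨B, hB, hf⟩ := p.2.2
    have hf' : {x : Iio p.1.1 | ¬ (x.1 ∈ B ↔ x.1 ∈ p.1.2)}.Finite := by
      refine Set.Finite.of_finite_image (f := Subtype.val) (hf.subset ?_)
        Subtype.val_injective.injOn
      rintro _ ⟨x, hx, rfl⟩
      exact ⟨x.2, hx⟩
    refine ⟨B ∩ Iio p.1.1, ⟨B, hB, rfl⟩, hf'.toFinset, ?_⟩
    ext b
    simp only [mem_ofPred_eq, Finite.mem_toFinset, mem_inter_iff, mem_Iio]
    constructor
    · intro h
      have hb : b < p.1.1 := p.2.1 h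
      exact ⟨hb, by simp [hb, h]⟩
    · rintro ⟨hb, h⟩
      by_contra hcon
      apply h
      simp [hb, hcon]
  choose! u hu F hF using key
  have hinj : InjOn (fun p : Node 𝓑 => (u p, F p)) {p : Node 𝓑 | p.1.1 = α} := by
    intro p hp q hq hpq
    simp only [Prod.mk.injEq] at hpq
    apply Subtype.ext
    apply Prod.ext (hp.trans hq.symm)
    rw [hF p hp, hF q hq, hpq.1, hpq.2]
  refine MapsTo.countable_of_injOn (t := ((fun S => S ∩ Iio α) '' 𝓑) ×ˢ (Set.univ : Set (Finset (Iio α))))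
    (fun p hp => ⟨hu p hp, mem_univ _⟩) hinj ?_
  exact (htr α).prod (countable_univ)

end

section

variable {W : Type} [LinearOrder W] [WellFoundedLT W] {𝓑 : Set (Set W)}

/-- the transferred order -/
def Rel (φ : Node 𝓑 ≃ W) (a b : W) : Prop := Lt (φ.symm a) (φ.symm b)

theorem to_Rel (φ : Node 𝓑 ≃ W) : TO (Rel φ) := by
  have h := to_Lt (𝓑 := 𝓑)
  refine ⟨fun a => h.irr _, fun a b c => h.tr _ _ _, fun a a' b h1 h2 => ?_, ?_⟩
  · rcases h.lin _ _ _ h1 h2 with h3 | h3 | h3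
    · exact Or.inl (φ.symm.injective h3)
    · exact Or.inr (Or.inl h3)
    · exact Or.inr (Or.inr h3)
  · exact InvImage.wf φ.symm h.wf

omit [WellFoundedLT W] in
theorem isHt (φ : Node 𝓑 ≃ W) : IsHt (Rel φ) fun a => (φ.symm a).1.1 := by
  intro b α
  constructor
  · intro h
    refine ⟨φ (restr (φ.symm b) α h), ?_, ?_⟩
    · show Lt (φ.symm (φ _)) _
      rw [φ.symm_apply_apply]
      exact restr_lt _ _ _
    · show (φ.symm (φ _)).1.1 = _
      rw [φ.symm_apply_apply]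
      rfl
  · rintro ⟨a, h, rfl⟩
    exact h.1

/-- the node of a member of the family -/
def nd (B : Set W) (hB : B ∈ 𝓑) (a : W) : Node 𝓑 :=
  ⟨(a, {b | b < a ∧ b ∈ B}), fun _ h => h.1, B, hB, by
    convert Set.finite_empty
    ext b
    simp only [mem_ofPred_eq, mem_empty_iff_false, iff_false, not_and, not_not]
    exact fun hb => ⟨fun h => ⟨hb, h⟩, fun h => h.2⟩⟩

theorem exists_tree (hL : Like W) (hW : #W = aleph 1) (hB : aleph 2 ≤ #𝓑)
    (htr : ∀ α : W, ((fun S => S ∩ Iio α) '' 𝓑).Countable) :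
    ∃ R : W → W → Prop, IsKurepa R ∧ IsRegular R := by
  classical
  have hne : 𝓑.Nonempty := by
    rw [nonempty_iff_ne_empty]
    rintro rfl
    simp only [mk_eq_zero, nonpos_iff_eq_zero] at hB
    exact absurd hB (aleph_pos 2).ne'
  obtain ⟨B0, hB0⟩ := hne
  -- the number of nodes
  have hN : #(Node 𝓑) = #W := by
    refine le_antisymm ?_ ?_
    · have h1 : (univ : Set (Node 𝓑)) = ⋃ α : W, {p : Node 𝓑 | p.1.1 = α} := by
        ext p
        simp
      rw [← mk_univ, h1]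
      refine (mk_iUnion_le _).trans ?_
      have h2 : (⨆ α : W, #{p : Node 𝓑 | p.1.1 = α}) ≤ ℵ₀ :=
        ciSup_le' fun α => le_aleph0_iff_set_countable.2 (countable_level hL htr α)
      refine (mul_le_mul' le_rfl h2).trans ?_
      rw [hW]
      exact (mul_aleph0_eq (aleph0_le_aleph 1)).le
    · refine mk_le_of_injective (f := fun a => nd B0 hB0 a) fun a b h => ?_
      exact congrArg (fun p : Node 𝓑 => p.1.1) h
  obtain ⟨φ⟩ := Cardinal.eq.1 hN
  have hTO := to_Rel φ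
  have hht := isHt φ
  have hH : ∀ b α, HasHeight (Rel φ) b α ↔ (φ.symm b).1.1 = α := hasHeight_iff hTO hht
  have hRφ : ∀ p q : Node 𝓑, Rel φ (φ p) (φ q) ↔ Lt p q := by
    intro p q
    unfold Rel
    rw [φ.symm_apply_apply, φ.symm_apply_apply]
  refine ⟨Rel φ, ⟨⟨isTreeOrder_iff.2 hTO, fun b => ⟨_, (hH b _).2 rfl⟩, fun α => ⟨?_, ?_⟩⟩, ?_⟩,
    ?_, ?_, ?_⟩
  · refine ⟨φ (nd B0 hB0 α), (hH _ _).2 ?_⟩
    rw [φ.symm_apply_apply]
    rfl
  · have h1 : {b | HasHeight (Rel φ) b α} = φ '' {p : Node 𝓑 | p.1.1 = α} := by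
      ext b
      constructor
      · intro h
        exact ⟨φ.symm b, (hH b α).1 h, φ.apply_symm_apply b⟩
      · rintro ⟨p, hp, rfl⟩
        refine (hH _ _).2 ?_
        rw [φ.symm_apply_apply]
        exact hp
    rw [h1]
    exact (countable_level hL htr α).image _
  · -- many branches
    refine hB.trans ?_
    have hbr : ∀ B (hBm : B ∈ 𝓑), range (fun a => φ (nd B hBm a)) ∈ uncBranches (Rel φ) := by
      intro B hBm
      refine ⟨⟨?_, fun C hC hBC => subset_antisymm hBC fun c hc => ?_⟩, ?_⟩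
      · rintro _ ⟨a, rfl⟩ _ ⟨b, rfl⟩ hne
        rcases lt_trichotomy a b with h | h | h
        · refine Or.inl ((hRφ _ _).2 ⟨h, fun x hx => ?_⟩)
          exact ⟨fun h' => ⟨h'.1.trans h, h'.2⟩, fun h' => ⟨hx, h'.2⟩⟩
        · exact absurd (by rw [h]) hne
        · refine Or.inr ((hRφ _ _).2 ⟨h, fun x hx => ?_⟩)
          exact ⟨fun h' => ⟨h'.1.trans h, h'.2⟩, fun h' => ⟨hx, h'.2⟩⟩
      · refine ⟨(φ.symm c).1.1, ?_⟩
        show φ (nd B hBm (φ.symm c).1.1) = c
        by_contra hcon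
        have h1 := hC (hBC ⟨(φ.symm c).1.1, rfl⟩) hc hcon
        have h2 : (φ.symm (φ (nd B hBm (φ.symm c).1.1))).1.1 = (φ.symm c).1.1 := by
          rw [φ.symm_apply_apply]
          rfl
        rcases h1 with h1 | h1
        · exact h1.1.ne h2
        · exact h1.1.ne h2.symm
      · intro hc
        apply hL.unc
        have h1 : Function.Injective fun a => φ (nd B hBm a) := by
          intro a b h
          exact congrArg (fun p : Node 𝓑 => p.1.1) (φ.injective h)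
        have := hc.to_subtype
        exact (Set.rangeFactorization_injective.2 h1).countable
    let F : 𝓑 → uncBranches (Rel φ) := fun B => ⟨_, hbr B.1 B.2⟩
    refine mk_le_of_injective (f := F) fun B C h => ?_
    apply Subtype.ext
    ext x
    have h1 : range (fun a => φ (nd B.1 B.2 a)) = range fun a => φ (nd C.1 C.2 a) :=
      congrArg Subtype.val h
    obtain ⟨y, hy⟩ := hL.exists_gt x
    have h2 : φ (nd B.1 B.2 y) ∈ range fun a => φ (nd C.1 C.2 a) := by
      rw [← h1]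
      exact ⟨y, rfl⟩
    obtain ⟨z, hz⟩ := h2
    have h3 := φ.injective hz
    have h4 : z = y := congrArg (fun p : Node 𝓑 => p.1.1) h3
    subst h4
    have h5 : {b | b < z ∧ b ∈ C.1} = {b | b < z ∧ b ∈ B.1} :=
      congrArg (fun p : Node 𝓑 => p.1.2) h3
    constructor
    · intro hx
      have h6 : x ∈ {b | b < z ∧ b ∈ C.1} := by rw [h5]; exact ⟨hy, hx⟩
      exact h6.2
    · intro hx
      have h6 : x ∈ {b | b < z ∧ b ∈ B.1} := by rw [← h5]; exact ⟨hy, hx⟩
      exact h6.2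
  · -- the root
    obtain ⟨w0⟩ := hL.nonempty
    let m := wellFounded_lt.min (Set.univ : Set W) ⟨w0, trivial⟩
    have hm : ∀ a, m ≤ a := fun a =>
      not_lt.1 (WellFounded.not_lt_min _ (s := (Set.univ : Set W)) (mem_univ a))
    refine ⟨φ (nd B0 hB0 m), fun a ha => ?_⟩
    have h1 : m < (φ.symm a).1.1 := by
      refine lt_of_le_of_ne (hm _) fun h => ha ?_
      rw [← φ.apply_symm_apply a]
      congr 1
      refine node_ext h.symm fun b hb => ?_
      exact absurd hb (not_lt.2 (h ▸ hm b))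
    show Lt (φ.symm (φ _)) _
    rw [φ.symm_apply_apply]
    exact ⟨h1, fun b hb => absurd hb (not_lt.2 (hm b))⟩
  · -- immediate successors
    intro a
    let p := φ.symm a
    let s := wellFounded_lt.min {b : W | p.1.1 < b} (hL.exists_gt _)
    have hs : p.1.1 < s := WellFounded.min_mem _ {b : W | p.1.1 < b} (hL.exists_gt _)
    have hs' : ∀ b, p.1.1 < b → s ≤ b := fun b hb =>
      not_lt.1 (WellFounded.not_lt_min _ (s := {b : W | p.1.1 < b}) hb)
    have hbs : ∀ b, b < s → b ≤ p.1.1 := fun b hb => not_lt.1 fun h => absurd (hs' b h)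
      (not_le.2 hb)
    have hnode : ∀ D : Prop, ∃ q : Node 𝓑, q.1.1 = s ∧ (p.1.1 ∈ q.1.2 ↔ D) ∧ Lt p q := by
      intro D
      obtain ⟨B, hBm, hf⟩ := p.2.2
      refine ⟨⟨(s, {b | b ∈ p.1.2 ∨ (b = p.1.1 ∧ D)}), ?_, B, hBm, ?_⟩, rfl, ?_, hs, ?_⟩
      · rintro b (hb | hb)
        · exact (p.2.1 hb).trans hs
        · show b < s
          rw [hb.1]
          exact hs
      · refine (hf.insert p.1.1).subset ?_
        rintro b ⟨hb, h⟩
        by_cases hbp : b = p.1.1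
        · exact Or.inl hbp
        · refine Or.inr ⟨lt_of_le_of_ne (hbs b hb) hbp, fun h' => h ?_⟩
          rw [h']
          simp [hbp]
      · show p.1.1 ∈ p.1.2 ∨ (p.1.1 = p.1.1 ∧ D) ↔ D
        have : p.1.1 ∉ p.1.2 := fun h => lt_irrefl _ (p.2.1 h)
        simp [this]
      · intro b hb
        show b ∈ p.1.2 ↔ b ∈ p.1.2 ∨ (b = p.1.1 ∧ D)
        simp [hb.ne]
    obtain ⟨q, hq1, hq2, hq3⟩ := hnode True
    obtain ⟨q', hq1', hq2', hq3'⟩ := hnode False
    have himm : ∀ q : Node 𝓑, q.1.1 = s → Lt p q → ImmSucc (Rel φ) a (φ q) := by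
      intro q hq h
      have ha : φ p = a := φ.apply_symm_apply a
      refine ⟨?_, ?_⟩
      · rw [← ha]
        exact (hRφ _ _).2 h
      · rintro ⟨c, hc1, hc2⟩
        have h1 : p.1.1 < (φ.symm c).1.1 := hc1.1
        have h2 : (φ.symm c).1.1 < (φ.symm (φ q)).1.1 := hc2.1
        rw [φ.symm_apply_apply, hq] at h2
        exact absurd (hs' _ h1) (not_le.2 h2)
    refine ⟨φ q, φ q', fun h => ?_, himm q hq1 hq3, himm q' hq1' hq3'⟩
    rw [φ.injective h] at hq2
    exact hq2'.1 (hq2.2 trivial)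
  · -- pruned
    intro a α β ha hαβ
    have h1 := (hH a α).1 ha
    obtain ⟨B, hBm, hf⟩ := (φ.symm a).2.2
    let q : Node 𝓑 := ⟨(β, {b | (b < α ∧ b ∈ (φ.symm a).1.2) ∨ (α ≤ b ∧ b < β ∧ b ∈ B)}), by
      rintro b (hb | hb)
      · exact hb.1.trans hαβ
      · exact hb.2.1, B, hBm, by
      refine hf.subset ?_
      rintro b ⟨hb, h⟩
      have hb' : b < β := hb
      rw [h1]
      by_cases hbα : b < α
      · refine ⟨hbα, fun h' => h ?_⟩
        rw [h']
        simp [hbα, not_le.2 hbα]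
      · exfalso
        apply h
        simp [hbα, not_lt.1 hbα, hb']⟩
    refine ⟨φ q, ?_, (hH _ _).2 (by rw [φ.symm_apply_apply])⟩
    show Lt (φ.symm a) (φ.symm (φ q))
    rw [φ.symm_apply_apply]
    refine ⟨h1 ▸ hαβ, fun b hb => ?_⟩
    rw [h1] at hb
    show b ∈ (φ.symm a).1.2 ↔ (b < α ∧ b ∈ (φ.symm a).1.2) ∨ (α ≤ b ∧ b < β ∧ b ∈ B)
    simp [hb, not_le.2 hb]

end

end Pool.Agent.Helper9CH.KurepaTree
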