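import Pool.Agent.Helper9CH.ProdK
import Pool.Agent.Helper292.ForceCH

/-!
# `2 ^ κ = κ⁺` can be forced at a strong limit cardinal `κ` of countable cofinality
-/

set_option autoImplicit false

namespace Pool.Agent.Helper9CH.PowColl

open Cardinal Pool.Agent.Helper292.ForceCH
open Pool.Agent.W910.FC (Coll)
open Pool.Agent.W684.FM (Bdd bdd_succ)

/-! ### The sentences -/

/-- In the extension some family of subsets of `A` indexed by `B` contains every subset of `A`. -/
def PowLe (P : Type) [Preorder P] (A B : Type) : Set P :=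
  fex fun E : B → A → Set P => fall fun x : A → Set P => fex fun b : B => fall fun a : A =>
    fiff (meets (x a)) (meets (E b a))

/-- The sentence `PowLe` read in the universe of sets: some family of subsets of `A` indexed by `B`
contains every subset of `A`. -/
def PlainPow (A B : Type) : Prop :=
  ∃ E : B → A → Prop, ∀ x : A → Prop, ∃ b : B, ∀ a : A, (x a ↔ E b a)

/-- The forcing notion adds no new subsets of the ground model set `A`. -/
def NoNewSubsets (P : Type) [Preorder P] (A : Type) : Set P :=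
  fall fun x : A → Set P => fex fun S : Set A => fall fun a : A =>
    fiff (meets (x a)) (fground (a ∈ S))

theorem plainPow_iff {A B : Type} : PlainPow A B ↔ (2 : Cardinal.{0}) ^ #A ≤ #B := by
  have h2 : #(A → Prop) = (2 : Cardinal.{0}) ^ #A := by simp
  constructor
  · rintro ⟨E, hE⟩
    rw [← h2]
    refine mk_le_of_surjective (f := E) fun x => ?_
    obtain ⟨b, hb⟩ := hE x
    exact ⟨b, funext fun a => propext (hb a).symm⟩
  · intro h
    rw [← h2] at h
    obtain ⟨f⟩ := h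
    refine ⟨Function.invFun f, fun x => ⟨f x, fun a => ?_⟩⟩
    rw [Function.leftInverse_invFun f.injective x]

/-! ### Deciding all members of a name -/

theorem decide_all {K : Type} [LinearOrder K] [WellFoundedLT K] {Q : Type} [Preorder Q]
    (hQK : ClosedOn K Q) {ι : Type} (hι : #ι ≤ #K) (x : ι → Set Q) (q0 : Q) :
    ∃ q ≤ q0, ∀ i, q ∈ meets (x i) ∨ q ∈ fnot (meets (x i)) := by
  classical
  rcases isEmpty_or_nonempty ι with he | hne
  · exact ⟨q0, le_rfl, fun i => (he.false i).elim⟩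
  obtain ⟨e, he⟩ : ∃ e : K → ι, Function.Surjective e := by
    obtain ⟨f⟩ := hι
    exact ⟨Function.invFun f, Function.invFun_surjective f.injective⟩
  have : Nonempty Q := ⟨q0⟩
  obtain ⟨F, hF1, hF2⟩ := exists_recK (S := Q) (K := K) (fun q q' => q' ≤ q)
    (fun i q => q ≤ q0 ∧ (q ∈ meets (x (e i)) ∨ q ∈ fnot (meets (x (e i))))) (by
      intro i F h1 h2
      obtain ⟨q, hq, hqF⟩ := hQK {j | j < i} F q0 (fun j _ k hk hjk => h2 j k hjk hk)
        (fun j hj => (h1 j hj).1)
      by_cases h : ∃ q' ≤ q, q' ∈ meets (x (e i))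
      · obtain ⟨q', hq', h'⟩ := h
        exact ⟨q', ⟨hq'.trans hq, Or.inl h'⟩, fun j hj => hq'.trans (hqF j hj)⟩
      · push Not at h
        exact ⟨q, ⟨hq, Or.inr h⟩, hqF⟩)
  obtain ⟨q, hq, hqF⟩ := hQK Set.univ F q0 (fun j _ k _ hjk => hF2 j k hjk)
    (fun j _ => (hF1 j).1)
  refine ⟨q, hq, fun i => ?_⟩
  obtain ⟨k, rfl⟩ := he i
  rcases (hF1 k).2 with h | h
  · exact Or.inl (down_meets _ _ h _ (hqF k (Set.mem_univ _)))
  · exact Or.inr (down_fnot _ _ h _ (hqF k (Set.mem_univ _)))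

section

variable {K : Type} [LinearOrder K] [WellFoundedLT K] {Q : Type} [Preorder Q]

theorem noNewSubsets (hQK : ClosedOn K Q) {A : Type} (hA : #A ≤ #K) (p : Q) :
    p ∈ NoNewSubsets Q A := by
  intro x
  rw [mem_fex]
  intro q _
  obtain ⟨r, hr, h⟩ := decide_all hQK hA x q
  refine ⟨r, hr, {a | r ∈ meets (x a)}, fun a => ?_⟩
  refine fiff_of_decided (down_meets _) (fun _ h _ _ => h) ?_
  rcases h a with h | h
  · exact Or.inl ⟨h, h⟩
  · exact Or.inr ⟨h, fun s _ hs => h r le_rfl hs⟩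

theorem powLe_ground (hQK : ClosedOn K Q) {A B : Type} (hA : #A ≤ #K)
    (hB : (2 : Cardinal.{0}) ^ #A ≤ #B) (p : Q) : p ∈ PowLe Q A B := by
  obtain ⟨E, hE⟩ := plainPow_iff.2 hB
  rw [PowLe, mem_fex]
  intro q _
  refine ⟨q, le_rfl, fun b a => {_s | E b a}, fun x => ?_⟩
  rw [mem_fex]
  intro s _
  obtain ⟨r, hr, h⟩ := decide_all hQK hA x s
  obtain ⟨b, hb⟩ := hE fun a => r ∈ meets (x a)
  refine ⟨r, hr, b, fun a => fiff_of_decided (down_meets _) (down_meets _) ?_⟩
  rcases h a with h | h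
  · exact Or.inl ⟨h, fun t _ => ⟨t, le_rfl, t, (hb a).1 h, le_rfl⟩⟩
  · refine Or.inr ⟨h, fun t _ ht => ?_⟩
    obtain ⟨u, _, v, hv, _⟩ := ht t le_rfl
    exact h r le_rfl ((hb a).2 hv)

theorem powLe_coll {W A : Type} [LinearOrder W] [NoMaxOrder W] (hW : Bdd K W)
    (hA : #A ≤ #K) (p : Coll W (Set A)) : p ∈ PowLe (Coll W (Set A)) A W := by
  have hQK : ClosedOn K (Coll W (Set A)) := coll_closedOn hW
  rw [PowLe, mem_fex]
  intro q _
  refine ⟨q, le_rfl, fun b a => {s | ∃ v, s.g b = some v ∧ a ∈ v}, fun x => ?_⟩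
  rw [mem_fex]
  intro s _
  obtain ⟨r, hr, h⟩ := decide_all hQK hA x s
  obtain ⟨b, hb⟩ := r.bd
  obtain ⟨t, ht, htb⟩ := r.extend b (hb b le_rfl) {a | r ∈ meets (x a)}
  refine ⟨t, ht.trans hr, b, fun a => fiff_of_decided (down_meets _) (down_meets _) ?_⟩
  rcases h a with h | h
  · exact Or.inl ⟨down_meets _ _ h _ ht, fun u hu => ⟨u, le_rfl, t, ⟨_, htb, h⟩, hu⟩⟩
  · refine Or.inr ⟨down_fnot _ _ h _ ht, fun u hu hm => ?_⟩
    obtain ⟨v, hv, w, ⟨y, hy, hay⟩, hvw⟩ := hm u le_rfl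
    have h1 : v.g b = some {a | r ∈ meets (x a)} := hu.trans' hv |> fun h' => h' b _ htb
    have h2 : v.g b = some y := hvw b _ hy
    rw [h1] at h2
    rw [← Option.some.inj h2] at hay
    exact h r le_rfl hay

end

/-- the iterated power sets of `ℕ` -/
def XX : ℕ → Type
  | 0 => ℕ
  | n + 1 => Set (XX n)

instance : Infinite (XX 0) := inferInstanceAs (Infinite ℕ)

/-- Some forcing notion adds no new subsets of `⋃ n, X n`, where `X n` are the iterated power sets
of `ℕ`, and forces that `2 ^ |⋃ n, X n|` is at most the successor of `|⋃ n, X n|`. -/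
theorem exists_forcing : ∃ (X : ℕ → Type) (W : Type), #(X 0) = ℵ₀ ∧
    (∀ n, #(X (n + 1)) = 2 ^ #(X n)) ∧ #W = Order.succ #(Σ n, X n) ∧
    ∃ (P : Type) (_ : Preorder P), Nonempty P ∧ ∀ p : P,
      p ∈ NoNewSubsets P (Σ n, X n) ∧
      p ∈ (fall fun n => PowLe P (X n) (X (n + 1))) ∧
      p ∈ PowLe P (Σ n, X n) W := by
  have hinf : Infinite (Σ n, XX n) :=
    Infinite.of_injective (fun k : XX 0 => (⟨0, k⟩ : Σ n, XX n)) fun a b h => by
      simpa using h
  let K : Type := (#(Σ n, XX n)).ord.ToType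
  have hK : #K = #(Σ n, XX n) := by rw [mk_ord_toType]
  have hKinf : Infinite K := by
    rw [infinite_iff, hK]
    exact aleph0_le_mk _
  have hW : Bdd K (Order.succ #K).ord.ToType := bdd_succ K
  have hno : NoMaxOrder (Order.succ #K).ord.ToType := by
    refine ⟨fun a => ?_⟩
    obtain ⟨b, hb⟩ := hW {a} (by
      rw [mk_singleton]
      exact one_lt_aleph0.le.trans (aleph0_le_mk K))
    exact ⟨b, hb a rfl⟩
  refine ⟨XX, (Order.succ #K).ord.ToType, mk_nat, fun n => mk_set, ?_, ?_⟩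
  · rw [mk_ord_toType, hK]
  · refine ⟨Coll (Order.succ #K).ord.ToType (Set (Σ n, XX n)), inferInstance, ?_, fun p => ?_⟩
    · obtain ⟨b, -⟩ := hW ∅ (by simp)
      exact ⟨⟨fun _ => none, b, fun _ _ => rfl⟩⟩
    · have hQK : ClosedOn K (Coll (Order.succ #K).ord.ToType (Set (Σ n, XX n))) :=
        coll_closedOn hW
      refine ⟨noNewSubsets hQK hK.ge p, fun n => ?_, powLe_coll hW hK.ge p⟩
      refine powLe_ground hQK ?_ mk_set.ge p
      rw [hK]
      exact mk_le_of_injective (f := fun a : XX n => (⟨n, a⟩ : Σ n, XX n)) fun a b h => by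
        simpa using h

/-- What the forced sentences say. -/
theorem plain {X : ℕ → Type} {W : Type} (h0 : Infinite (X 0))
    (h1 : ∀ n, PlainPow (X n) (X (n + 1))) (hW : #W ≤ Order.succ #(Σ n, X n))
    (h2 : PlainPow (Σ n, X n) W) :
    (#(Σ n, X n)).IsStrongLimit ∧ ℵ₀ < #(Σ n, X n) ∧ (#(Σ n, X n)).ord.cof = ℵ₀ ∧
      2 ^ #(Σ n, X n) = Order.succ #(Σ n, X n) := by
  have h1' : ∀ n, (2 : Cardinal.{0}) ^ #(X n) ≤ #(X (n + 1)) := fun n => plainPow_iff.1 (h1 n)
  have hle : ∀ n, #(X n) ≤ #(Σ n, X n) := fun n =>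
    mk_le_of_injective (f := fun a : X n => (⟨n, a⟩ : Σ n, X n)) fun a b h => by simpa using h
  have hlt : ∀ n, #(X n) < #(Σ n, X n) := fun n =>
    (cantor _).trans_le ((h1' n).trans (hle _))
  have hinf : ∀ n, ℵ₀ ≤ #(X n) := by
    intro n
    induction n with
    | zero => exact aleph0_le_mk _
    | succ n ih => exact ih.trans ((cantor _).le.trans (h1' n))
  have hsum : ∀ c : Cardinal.{0}, (∀ n, #(X n) ≤ c) → #(Σ n, X n) ≤ c := by
    intro c hc
    rw [mk_sigma]
    refine (sum_le_mk_mul_iSup _).trans ?_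
    rw [mk_nat]
    refine (mul_le_mul' ((hinf 0).trans (hc 0)) (ciSup_le' hc)).trans ?_
    exact (mul_eq_self ((hinf 0).trans (hc 0))).le
  have hpow : ∀ c < #(Σ n, X n), (2 : Cardinal.{0}) ^ c < #(Σ n, X n) := by
    intro c hc
    have : ∃ n, c < #(X n) := by
      by_contra hcon
      push Not at hcon
      exact absurd (hsum c hcon) (not_le.2 hc)
    obtain ⟨n, hn⟩ := this
    exact (power_le_power_left two_ne_zero hn.le).trans_lt ((h1' n).trans_lt (hlt (n + 1)))
  have hκ : ℵ₀ < #(Σ n, X n) := (hinf 0).trans_lt (hlt 0)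
  refine ⟨⟨hκ.ne_bot, fun c hc => hpow c hc⟩, hκ, ?_, ?_⟩
  · refine le_antisymm ?_ ?_
    · by_contra hcon
      rw [not_le] at hcon
      have h3 : (⨆ n, #(X n)) < #(Σ n, X n) := by
        refine Cardinal.iSup_lt_of_lt_cof_ord (by rwa [mk_nat]) hlt
      refine absurd (hsum _ fun n => ?_) (not_le.2 h3)
      exact le_ciSup (bddAbove_of_small (s := Set.range fun n => #(X n))) n
    · exact Ordinal.aleph0_le_cof_iff.2 (Ordinal.one_lt_cof_iff.2 (isSuccLimit_ord hκ.le))
  · refine le_antisymm ?_ (Order.succ_le_of_lt (cantor _))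
    exact (plainPow_iff.1 h2).trans hW

end Pool.Agent.Helper9CH.PowColl
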