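import Pool.Agent.W910.FC.Collapse

/-!
# Martin's axiom for `κ` dense sets and `𝔠 ≤ κ⁺` can be forced

This is the argument of `Pool.Agent.W910.FC` with `ℵ₁` replaced by an arbitrary uncountable
cardinal `κ`. The forcing notion is the product of the iteration which forces Martin's axiom for
`κ` dense sets and of the preorder of the bounded partial functions from `κ⁺` to the names of the
iteration for relations on the natural numbers.
-/

set_option autoImplicit false

namespace Pool.Agent.Helper9CH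

open Cardinal Pool.Agent.Helper669.Forcing Pool.Agent.W684.FM Pool.Agent.W910.FC

section Rec

variable {S K : Type} [LinearOrder K] [WellFoundedLT K]

theorem exists_recK (rel : S → S → Prop) (G : K → S → Prop) [Nonempty S]
    (h : ∀ (i : K) (F : K → S), (∀ j, j < i → G j (F j)) →
      (∀ j k, j < k → k < i → rel (F j) (F k)) → ∃ s, G i s ∧ ∀ j, j < i → rel (F j) s) :
    ∃ F : K → S, (∀ i, G i (F i)) ∧ ∀ j i, j < i → rel (F j) (F i) := by
  classical
  let F : K → S := WellFounded.fix (wellFounded_lt (α := K)) fun i F' =>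
    if h : ∃ s, G i s ∧ ∀ j (hj : j < i), rel (F' j hj) s then h.choose
    else Classical.arbitrary S
  have hF : ∀ i, F i = if h : ∃ s, G i s ∧ ∀ j, j < i → rel (F j) s then h.choose
      else Classical.arbitrary S := fun i => by
    simp only [F]
    rw [WellFounded.fix_eq]
  have key : ∀ i, G i (F i) ∧ ∀ j, j < i → rel (F j) (F i) := by
    intro i
    induction i using WellFoundedLT.induction with
    | ind i ih =>
      have h1 : ∃ s, G i s ∧ ∀ j, j < i → rel (F j) s :=
        h i F (fun j hj => (ih j hj).1) (fun j k hjk hk => (ih k hk).2 j hjk)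
      have h2 : F i = h1.choose := by rw [hF i, dif_pos h1]
      rw [h2]
      exact h1.choose_spec
  exact ⟨F, fun i => (key i).1, fun j i hj => (key i).2 j hj⟩

end Rec

/-- decreasing sequences indexed by subsets of `K` have lower bounds -/
def ClosedOn (K : Type) [LinearOrder K] (Q : Type) [Preorder Q] : Prop :=
  ∀ (I : Set K) (C : K → Q) (q0 : Q), (∀ i ∈ I, ∀ j ∈ I, i < j → C j ≤ C i) →
    (∀ i ∈ I, C i ≤ q0) → ∃ q ≤ q0, ∀ i ∈ I, q ≤ C i

/-- Every uncountable cardinal `ν ≤ κ` of the ground model is a cardinal of the extension: no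
function from a set of smaller ground model cardinality `μ` to `ν` is onto. -/
def CardinalsPreservedUpTo (P : Type) [Preorder P] (κ : Cardinal.{0}) : Set P :=
  fall fun μ : Cardinal.{0} => fall fun ν : Cardinal.{0} => fall fun _ : μ < ν =>
    fall fun _ : ℵ₀ < ν => fall fun _ : ν ≤ κ =>
      fnot (fex fun R : μ.out → ν.out → Set P => fand (IsFun R) (IsOnto R))

section

variable {K : Type} [LinearOrder K] [WellFoundedLT K] {Q P : Type} [Preorder Q] [Preorder P]

/-- `#K` names -/
theorem exists_namesK (hQ : Closed2 Q) (hQK : ClosedOn K Q) (hP : PCCC P) {ι : Type}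
    (hι : #ι ≤ #K) (N : ι → Set (Q × P)) (q0 : Q) :
    ∃ q ≤ q0, ∃ A : ι → Set P, ∀ i, Tr q (meets (N i)) (meets (A i)) := by
  classical
  rcases isEmpty_or_nonempty ι with he | hne
  · exact ⟨q0, le_rfl, fun i => (he.false i).elim, fun i => (he.false i).elim⟩
  obtain ⟨e, he⟩ : ∃ e : K → ι, Function.Surjective e := by
    obtain ⟨f⟩ := hι
    exact ⟨Function.invFun f, Function.invFun_surjective f.injective⟩
  have : Nonempty Q := ⟨q0⟩
  obtain ⟨F, hF1, hF2⟩ := exists_recK (S := Q) (K := K) (fun q q' => q' ≤ q)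
    (fun i q => q ≤ q0 ∧ ∃ A : Set P, Tr q (meets (N (e i))) (meets A)) (by
      intro i F h1 h2
      obtain ⟨q, hq, hqF⟩ := hQK {j | j < i} F q0 (fun j _ k hk hjk => h2 j k hjk hk)
        (fun j hj => (h1 j hj).1)
      obtain ⟨q', hq', A, hA⟩ := exists_name hQ hP (N (e i)) q
      exact ⟨q', ⟨hq'.trans hq, A, hA⟩, fun j hj => hq'.trans (hqF j hj)⟩)
  obtain ⟨q, hq, hqF⟩ := hQK Set.univ F q0 (fun j _ k _ hjk => hF2 j k hjk)
    (fun j _ => (hF1 j).1)
  choose i hi using he
  choose hF1 A hA using hF1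
  refine ⟨q, hq, fun x => A (i x), fun x => ?_⟩
  have h1 := (hA (i x)).mono (hqF _ (Set.mem_univ _))
  rwa [hi x] at h1

/-- The product forces Martin's axiom. -/
theorem martinHolds_prodK {X : Type} [Infinite X] (hX : #X ≤ #K) (hQ : Closed2 Q)
    (hQK : ClosedOn K Q) (hP : PCCC P) (hMA : ∀ p : P, p ∈ MartinHolds P X)
    (s : Q × P) : s ∈ MartinHolds (Q × P) X := by
  intro R D
  rw [mem_fimp]
  rintro ⟨q0, p0⟩ _ ⟨hpre, hccc, hD⟩
  have hcard : #(X × X) ≤ #K := by
    rw [Cardinal.mk_prod, Cardinal.lift_id, Cardinal.mul_eq_self (Cardinal.aleph0_le_mk X)]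
    exact hX
  obtain ⟨q1, hq1, R', hR'⟩ := exists_namesK (K := K) hQ hQK hP hcard (fun i => R i.1 i.2) q0
  obtain ⟨q2, hq2, D', hD'⟩ := exists_namesK (K := K) hQ hQK hP hcard (fun i => D i.1 i.2) q1
  have hR : ∀ x y, Tr q2 (meets (R x y)) (meets (R' (x, y))) := fun x y =>
    (hR' (x, y)).mono hq2
  have hDt : ∀ x y, Tr q2 (meets (D x y)) (meets (D' (x, y))) := fun x y => hD' (x, y)
  have hle : ((q2, p0) : Q × P) ≤ (q0, p0) := ⟨hq2.trans hq1, le_rfl⟩
  have tpre : Tr q2 (IsPreN R) (IsPreN fun x y => R' (x, y)) :=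
    Tr.fand (Tr.fall fun x => hR x x) (Tr.fall fun x => Tr.fall fun y => Tr.fall fun z =>
      Tr.fimp (Tr.fand (hR x y) (hR y z)) (hR x z))
  have tdense : Tr q2 (fall fun i => IsDenseN R (D i))
      (fall fun i => IsDenseN (fun x y => R' (x, y)) fun x => D' (i, x)) :=
    Tr.fall fun i => Tr.fall fun x => Tr.fex fun y => Tr.fand (hDt i y) (hR y x)
  have h1 : p0 ∈ IsPreN fun x y => R' (x, y) :=
    (tpre q2 le_rfl p0).1 (down_IsPreN R _ hpre _ hle)
  have h2 : p0 ∈ fall fun i => IsDenseN (fun x y => R' (x, y)) fun x => D' (i, x) :=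
    (tdense q2 le_rfl p0).1 (down_fall (fun i => down_IsDenseN R (D i)) _ hD _ hle)
  have h3 : p0 ∈ CCCN fun x y => R' (x, y) := by
    intro Z f
    have h4 := down_CCCN R _ hccc _ hle (fun a => lift Q (Z a)) (fun a x => lift Q (f a x))
    have t4 : Tr q2 (fimp (fand (UnbN fun a => lift Q (Z a)) (IsFun fun a x => lift Q (f a x)))
        (fex fun a => fex fun b => fand (fground (a ≠ b)) (fand (meets (lift Q (Z a)))
          (fand (meets (lift Q (Z b))) (fex fun x => fex fun y =>
            fand (meets (lift Q (f a x))) (fand (meets (lift Q (f b y))) (CompatN R x y)))))))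
        (fimp (fand (UnbN Z) (IsFun f)) (fex fun a => fex fun b =>
          fand (fground (a ≠ b)) (fand (meets (Z a)) (fand (meets (Z b))
            (fex fun x => fex fun y =>
              fand (meets (f a x)) (fand (meets (f b y))
                (CompatN (fun x y => R' (x, y)) x y))))))) := by
      refine Tr.fimp (Tr.fand ?_ (Tr.IsFun fun x y => Tr.lift _ _)) ?_
      · exact Tr.fall fun a => Tr.fex fun b => Tr.fand (Tr.fground _ _) (Tr.lift _ _)
      · exact Tr.fex fun a => Tr.fex fun b => Tr.fand (Tr.fground _ _) (Tr.fand (Tr.lift _ _)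
          (Tr.fand (Tr.lift _ _) (Tr.fex fun x => Tr.fex fun y => Tr.fand (Tr.lift _ _)
            (Tr.fand (Tr.lift _ _) (Tr.fex fun z => Tr.fand (hR z x) (hR z y))))))
    exact (t4 q2 le_rfl p0).1 h4
  refine ⟨(q2, p0), hle, ?_⟩
  have h5 := hMA p0 (fun x y => R' (x, y)) (fun i x => D' (i, x))
  rw [mem_fimp] at h5
  rw [mem_fex]
  rintro ⟨q3, p3⟩ ⟨hq3, hp3⟩
  obtain ⟨p4, hp4, h6⟩ := h5 p3 hp3 ⟨down_IsPreN _ _ h1 _ hp3, down_CCCN _ _ h3 _ hp3,
    down_fall (fun i => down_IsDenseN _ _) _ h2 _ hp3⟩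
  obtain ⟨p5, hp5, F, hF⟩ := mem_fex.1 h6 p4 le_rfl
  refine ⟨(q3, p5), ⟨le_rfl, hp5.trans hp4⟩, fun x => lift Q (F x), ?_⟩
  have t6 : Tr q2 (fand (IsFilterN R fun x => lift Q (F x))
      (fall fun i => fex fun x => fand (meets (lift Q (F x))) (meets (D i x))))
      (fand (IsFilterN (fun x y => R' (x, y)) F)
      (fall fun i => fex fun x => fand (meets (F x)) (meets (D' (i, x))))) := by
    refine Tr.fand (Tr.fand (Tr.fex fun x => Tr.lift _ _) (Tr.fand ?_ ?_)) ?_
    · exact Tr.fall fun x => Tr.fall fun y => Tr.fimp (Tr.fand (Tr.lift _ _) (hR x y))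
        (Tr.lift _ _)
    · exact Tr.fall fun x => Tr.fall fun y => Tr.fimp (Tr.fand (Tr.lift _ _) (Tr.lift _ _))
        (Tr.fex fun z => Tr.fand (Tr.lift _ _) (Tr.fand (hR z x) (hR z y)))
    · exact Tr.fall fun i => Tr.fex fun x => Tr.fand (Tr.lift _ _) (hDt i x)
  exact (t6 q3 hq3 p5).2 hF

/-- The product preserves the cardinals up to `#K`. -/
theorem cardinals_prodK [Infinite K] (hQ : Closed2 Q) (hQK : ClosedOn K Q) (hP : PCCC P)
    (s : Q × P) : s ∈ CardinalsPreservedUpTo (Q × P) #K := by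
  intro μ ν hμν hν hνK
  rintro ⟨q0, p0⟩ _ h
  obtain ⟨⟨q1, p1⟩, ⟨hq1, hp1⟩, R, hR⟩ := mem_fex.1 h (q0, p0) le_rfl
  have hcard : #(μ.out × ν.out) ≤ #K := by
    rw [Cardinal.mk_prod, Cardinal.lift_id, Cardinal.lift_id, Cardinal.mk_out, Cardinal.mk_out]
    refine (mul_le_mul' (hμν.le.trans hνK) hνK).trans ?_
    rw [Cardinal.mul_eq_self (Cardinal.aleph0_le_mk K)]
  obtain ⟨q2, hq2, R', hR'⟩ := exists_namesK (K := K) hQ hQK hP hcard (fun i => R i.1 i.2) q1
  have t : Tr q2 (fand (IsFun R) (IsOnto R))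
      (fand (IsFun fun x y => R' (x, y)) (IsOnto fun x y => R' (x, y))) :=
    Tr.fand (Tr.IsFun fun x y => hR' (x, y)) (Tr.IsOnto fun x y => hR' (x, y))
  have h1 : p1 ∈ fand (IsFun fun x y => R' (x, y)) (IsOnto fun x y => R' (x, y)) :=
    (t q2 le_rfl p1).1 ((down_fand (down_IsFun R) (down_IsOnto R)) _ hR _ ⟨hq2, le_rfl⟩)
  have h2 : p1 ∈ fex fun R : μ.out → ν.out → Set P => fand (IsFun R) (IsOnto R) :=
    mem_fex_of_mem _ (down_fand (down_IsFun _) (down_IsOnto _)) h1
  exact hP.cardinalsPreserved p1 μ ν hμν hν p1 le_rfl h2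

end

section

variable {K W V : Type} [LinearOrder K] [LinearOrder W]

theorem coll_closedOn (hW : Bdd K W) : ClosedOn K (Coll W V) := by
  classical
  intro I C q0 hC hq0
  -- the members are pairwise comparable
  have hcomp : ∀ i ∈ I, ∀ j ∈ I, ∀ ξ v w, (C i).g ξ = some v → (C j).g ξ = some w → v = w := by
    intro i hi j hj ξ v w h1 h2
    rcases lt_trichotomy i j with h | h | h
    · have := hC i hi j hj h ξ v h1
      rw [h2] at this
      exact (Option.some.inj this).symm
    · subst h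
      rw [h1] at h2
      exact Option.some.inj h2
    · have := hC j hj i hi h ξ w h2
      rw [h1] at this
      exact Option.some.inj this
  choose b hb using fun i => (C i).bd
  obtain ⟨b0, hb0⟩ := q0.bd
  obtain ⟨α, hα⟩ := hW (Set.range b) (mk_range_le)
  let g : W → Option V := fun ξ =>
    if h : ∃ v, (∃ i ∈ I, (C i).g ξ = some v) ∨ q0.g ξ = some v then some h.choose else none
  have hg : ∀ ξ v, ((∃ i ∈ I, (C i).g ξ = some v) ∨ q0.g ξ = some v) → g ξ = some v := by
    intro ξ v hv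
    have h : ∃ v, (∃ i ∈ I, (C i).g ξ = some v) ∨ q0.g ξ = some v := ⟨v, hv⟩
    simp only [g, dif_pos h]
    congr 1
    have hs := h.choose_spec
    rcases hv with ⟨i, hi, hv⟩ | hv
    · rcases hs with ⟨j, hj, hs⟩ | hs
      · exact hcomp j hj i hi ξ _ _ hs hv
      · have := hq0 i hi ξ _ hs
        rw [hv] at this
        exact (Option.some.inj this).symm
    · rcases hs with ⟨j, hj, hs⟩ | hs
      · have := hq0 j hj ξ _ hv
        rw [hs] at this
        exact Option.some.inj this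
      · exact Option.some.inj (hs.symm.trans hv)
  refine ⟨⟨g, max α b0, fun ξ hξ => ?_⟩, fun ξ v hv => hg ξ v (Or.inr hv),
    fun i hi ξ v hv => hg ξ v (Or.inl ⟨i, hi, hv⟩)⟩
  have h : ¬ ∃ v, (∃ i ∈ I, (C i).g ξ = some v) ∨ q0.g ξ = some v := by
    rintro ⟨v, ⟨i, _, hv⟩ | hv⟩
    · rw [hb i ξ ((hα _ ⟨i, rfl⟩).le.trans ((le_max_left _ _).trans hξ))] at hv
      exact absurd hv (by simp)
    · rw [hb0 ξ ((le_max_right _ _).trans hξ)] at hv
      exact absurd hv (by simp)
  simp only [g, dif_neg h]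

end

/-- Martin's axiom for `#X` dense sets and `𝔠 ≤ (#X)⁺` can be forced, with preservation of `ω₁`
and of all cardinals up to `#X`, over every ground model, for every uncountable `X`. -/
theorem exists_forcingK (X : Type) (hX : ℵ₁ ≤ #X) : ∃ (P : Type) (_ : Preorder P), Nonempty P ∧
    ∀ p : P, p ∈ OmegaOnePreserved P ∧ p ∈ CardinalsPreservedUpTo P #X ∧
      p ∈ MartinHolds P X ∧ p ∈ ContinuumLe P (Order.succ #X).out := by
  have hXi : Infinite X := by
    rw [Cardinal.infinite_iff]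
    exact (Cardinal.aleph0_le_aleph 1).trans hX
  let K : Type := (#X).ord.ToType
  have hK : #K = #X := Cardinal.mk_ord_toType _
  have hKi : Infinite K := by
    rw [Cardinal.infinite_iff, hK]
    exact (Cardinal.aleph0_le_aleph 1).trans hX
  let W : Type := (Order.succ #X).ord.ToType
  let P0 : Type := PP X W
  have hW : Bdd X W := bdd_succ X
  have hW1 : Bdd Om1 W := fun L hL => hW L (hL.trans (by rwa [Cardinal.mk_ord_toType]))
  have hWK : Bdd K W := fun L hL => hW L (hL.trans hK.le)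
  have hNM : NoMaxOrder W := by
    constructor
    intro a
    obtain ⟨b, hb⟩ := hW {a} (by
      rw [mk_singleton]
      exact Cardinal.one_lt_aleph0.le.trans (Cardinal.aleph0_le_mk X))
    exact ⟨b, hb a rfl⟩
  have hWne : Nonempty W := by
    obtain ⟨b, _⟩ := hW ∅ (by simp)
    exact ⟨b⟩
  have hQ : Closed2 (Coll W (ℕ → ℕ → Set P0)) := Coll.closed hW1
  have hQK : ClosedOn K (Coll W (ℕ → ℕ → Set P0)) := coll_closedOn hWK
  have hP : PCCC P0 := pccc
  have hcard : #W = #(Order.succ #X).out := by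
    rw [Cardinal.mk_ord_toType, Cardinal.mk_out]
  obtain ⟨e⟩ := Cardinal.eq.1 hcard
  refine ⟨Coll W (ℕ → ℕ → Set P0) × P0, inferInstance, ⟨?_⟩, fun s =>
    ⟨omegaOne_prod hQ hP s, ?_,
      martinHolds_prodK (K := K) hK.ge hQ hQK hP (fun p => martinHolds hW p) s,
      continuumLe_congr e.symm (continuumLe_prod hQ hP s)⟩⟩
  · exact (⟨fun _ => none, hWne.some, fun _ _ => rfl⟩, ⟨∅, valid_empty _⟩)
  · have := cardinals_prodK (K := K) hQ hQK hP s
    rwa [hK] at this

end Pool.Agent.Helper9CH
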