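import Mathlib
import Pool.Agent.Y40.MA.Core
import Pool.Agent.Helper292.ForceCH
import Pool.Agent.W910.FC.Collapse
import Pool.Agent.Y561.KS.Cohen

/-! Forced continuum hypothesis; forced Martin's axiom with `𝔠 = ℵ₂`; conversions. -/

set_option autoImplicit false

open Set Cardinal

namespace Pool.Agent.Helper9CH

theorem exists_ch : ∃ (P : Type) (_ : Preorder P), Nonempty P ∧ ∀ p : P,
    p ∈ Pool.Agent.Helper292.ForceCH.OmegaOnePreserved P ∧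
      p ∈ Pool.Agent.Helper292.ForceCH.CHHolds P := by
  obtain ⟨P, i, h1, h2⟩ := Pool.Agent.Helper292.ForceCH.exists_forcing
  exact ⟨P, i, h1, fun p => ⟨(h2 p).1, (h2 p).2.2⟩⟩

theorem martin_of_for (hM : Pool.Agent.W684.FM.MartinFor Pool.Agent.W684.FM.Om1)
    (hc : (𝔠 : Cardinal.{0}) ≤ ℵ_ 2) :
    Pool.Agent.Y40.MA.MartinAxiom ∧ (𝔠 : Cardinal.{0}) = ℵ_ 2 := by
  have hMA := Pool.Agent.W684.FM.martinFor_om1_iff.1 hM
  have h2 : Order.succ (ℵ₁ : Cardinal.{0}) = ℵ_ 2 := by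
    rw [Cardinal.succ_aleph]
    norm_num
  refine ⟨?_, le_antisymm hc ?_⟩
  · intro P _ _ hP 𝒟 h𝒟 hD
    have h4 : #𝒟 ≤ ℵ₁ := by
      have h3 := h𝒟.trans_le hc
      rw [← h2] at h3
      exact Order.lt_succ_iff.1 h3
    obtain ⟨G, g1, g2, g3, g4⟩ := hMA P (fun A hA => hP A hA) 𝒟 h4 (fun D hDm => hD D hDm)
    exact ⟨G, ⟨g1, g2, g3⟩, g4⟩
  · rw [← h2]
    exact Order.succ_le_of_lt (Pool.Agent.Y561.KS.aleph_one_lt_of_ma hMA)

end Pool.Agent.Helper9CH
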